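import Pool.Agent.K9h61.GG.Lin
import Pool.Agent.H45R3.UG.HallV
import Pool.Agent.H785R3.GrowthP

/-!
# Eigenfunctionals: existence, common eigenfunctionals, descent
-/

set_option autoImplicit false
set_option linter.unusedSectionVars false

open Polynomial TensorProduct

namespace Pool.Agent.K9h61.GG

open Pool.Agent.H45R3.UG
open scoped IsMulCommutative commutatorElement

/-! ### common eigenvectors -/

theorem common_eig {V : Type*} [AddCommGroup V] [Module ℂ V] [FiniteDimensional ℂ V] {ι : Type*}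
    (f : ι → Module.End ℂ V) (hcomm : ∀ i j, Commute (f i) (f j)) (W0 : Submodule ℂ V)
    (hW0 : W0 ≠ ⊥) (hinv : ∀ i, ∀ v ∈ W0, f i v ∈ W0) :
    ∃ v ∈ W0, v ≠ 0 ∧ ∀ i, ∃ μ : ℂ, f i v = μ • v := by
  classical
  let S : Set (Submodule ℂ V) := {W | W ≤ W0 ∧ W ≠ ⊥ ∧ ∀ i, ∀ v ∈ W, f i v ∈ W}
  have hS : S.Nonempty := ⟨W0, le_rfl, hW0, hinv⟩
  have hwf : WellFounded ((· < ·) : Submodule ℂ V → Submodule ℂ V → Prop) := wellFounded_lt
  obtain ⟨W, ⟨hWle, hWne, hWinv⟩, hmin⟩ := hwf.has_min S hS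
  obtain ⟨v, hvW, hv0⟩ := Submodule.exists_mem_ne_zero_of_ne_bot hWne
  refine ⟨v, hWle hvW, hv0, fun i => ?_⟩
  have hnt : Nontrivial W := (Submodule.nontrivial_iff_ne_bot).2 hWne
  obtain ⟨μ, hμ⟩ := Module.End.exists_eigenvalue ((f i).restrict (hWinv i))
  obtain ⟨x, hx⟩ := hμ.exists_hasEigenvector
  refine ⟨μ, ?_⟩
  let W' : Submodule ℂ V := W ⊓ LinearMap.ker (f i - algebraMap ℂ _ μ)
  have hker : ∀ y, y ∈ LinearMap.ker (f i - algebraMap ℂ _ μ) ↔ f i y = μ • y := by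
    intro y
    rw [LinearMap.mem_ker, LinearMap.sub_apply, Module.algebraMap_end_apply, sub_eq_zero]
  have hW'S : W' ∈ S := by
    refine ⟨inf_le_left.trans hWle, ?_, ?_⟩
    · intro h0
      have h1 : (x : V) ∈ W' := by
        refine Submodule.mem_inf.2 ⟨x.2, (hker _).2 ?_⟩
        have h2 := hx.apply_eq_smul
        have h3 := congrArg Subtype.val h2
        exact h3
      rw [h0, Submodule.mem_bot] at h1
      exact hx.2 (Subtype.ext h1)
    · intro j y hy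
      obtain ⟨hy1, hy2⟩ := Submodule.mem_inf.1 hy
      refine Submodule.mem_inf.2 ⟨hWinv j y hy1, ?_⟩
      rw [hker] at hy2 ⊢
      rw [← Module.End.mul_apply, (hcomm i j).eq, Module.End.mul_apply, hy2, map_smul]
  have h4 : W' = W := by
    by_contra hne
    exact hmin W' hW'S (lt_of_le_of_ne inf_le_left hne)
  have h5 : v ∈ W' := by rw [h4]; exact hvW
  exact (hker v).1 (Submodule.mem_inf.1 h5).2

section module
variable {M : Type*} [AddCommGroup M]

instance finDual [Module.Finite ℤ M] : FiniteDimensional ℂ (M →ₗ[ℤ] ℂ) := by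
  obtain ⟨n, s, hs⟩ := Module.Finite.exists_fin (R := ℤ) (M := M)
  let ev : (M →ₗ[ℤ] ℂ) →ₗ[ℂ] (Fin n → ℂ) :=
    { toFun := fun f i => f (s i)
      map_add' := fun f g => rfl
      map_smul' := fun c f => rfl }
  refine Module.Finite.of_injective ev ?_
  intro f g h
  have h1 : ∀ i, f (s i) = g (s i) := fun i => congrFun h i
  apply LinearMap.ext_on_range hs h1

/-- precomposition -/
def pre (g : Module.End ℤ M) : Module.End ℂ (M →ₗ[ℤ] ℂ) where
  toFun f := f.comp g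
  map_add' _ _ := rfl
  map_smul' _ _ := rfl

theorem common_functional [Module.Finite ℤ M] {ι : Type*} (g : ι → Module.End ℤ M)
    (hg : ∀ i j, Commute (g i) (g j)) (i0 : ι) (z : ℂ) (f0 : M →+ ℂ)
    (hf0 : ∀ a, f0 (g i0 a) = z * f0 a) (hne : ∃ a, f0 a ≠ 0) :
    ∃ f : M →+ ℂ, (∀ a, f (g i0 a) = z * f a) ∧ (∀ i, ∃ μ : ℂ, ∀ a, f (g i a) = μ * f a) ∧
      ∃ a, f a ≠ 0 := by
  let W0 : Submodule ℂ (M →ₗ[ℤ] ℂ) := LinearMap.ker (pre (g i0) - algebraMap ℂ _ z)
  have hW0 : ∀ f : M →ₗ[ℤ] ℂ, f ∈ W0 ↔ ∀ a, f (g i0 a) = z * f a := by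
    intro f
    rw [LinearMap.mem_ker, LinearMap.sub_apply, Module.algebraMap_end_apply, sub_eq_zero,
      LinearMap.ext_iff]
    exact Iff.rfl
  have hcomm : ∀ i j, Commute (pre (g i)) (pre (g j)) := by
    intro i j
    apply LinearMap.ext
    intro f
    apply LinearMap.ext
    intro a
    show f (g j (g i a)) = f (g i (g j a))
    rw [← Module.End.mul_apply, (hg j i).eq, Module.End.mul_apply]
  obtain ⟨f, hfW, hf, hμ⟩ := common_eig (fun i => pre (g i)) hcomm W0 (by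
    intro h0
    obtain ⟨a, ha⟩ := hne
    have h1 : f0.toIntLinearMap ∈ W0 := (hW0 _).2 hf0
    rw [h0, Submodule.mem_bot] at h1
    exact ha (by
      have := LinearMap.congr_fun h1 a
      exact this)) (by
    intro i f hf
    rw [hW0] at hf ⊢
    intro a
    show f (g i (g i0 a)) = z * f (g i a)
    rw [← hf, ← Module.End.mul_apply, (hg i i0).eq, Module.End.mul_apply])
  refine ⟨f.toAddMonoidHom, (hW0 f).1 hfW, fun i => ?_, ?_⟩
  · obtain ⟨μ, h⟩ := hμ i
    exact ⟨μ, fun a => LinearMap.congr_fun h a⟩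
  · by_contra hcon
    push Not at hcon
    exact hf (LinearMap.ext hcon)

end module

/-! ### elements which are not quasi-unipotent -/

/-- quasi-unipotent action on a subgroup -/
def QN {Q : Type} [Group Q] (A : Subgroup Q) (s : Q) : Prop :=
  ∃ m k : ℕ, 0 < m ∧ ∀ M : ℕ, ∀ a ∈ A, (E (s ^ (M * m)))^[k] a = 1

lemma finiteA {Q : Type} [Group Q] {A : Subgroup Q} [IsMulCommutative A] (hfg : A.FG) :
    Module.Finite ℤ (Additive A) := by
  have h1 : Group.FG A := (Group.fg_iff_subgroup_fg A).2 hfg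
  rw [Module.Finite.iff_addGroup_fg]
  infer_instance

theorem EF_of_not_qu {Q : Type} [Group Q] (A : Subgroup Q) [A.Normal] [IsMulCommutative A]
    (hfg : A.FG) (s : Q) (h : ¬ QN A s) :
    ∃ w : ℂ, (∀ n > 0, w ^ n ≠ 1) ∧ EF A s w := by
  classical
  have hfin := finiteA hfg
  obtain ⟨S, hS⟩ := hfg
  have hex : ∃ v : Additive A, ∀ m k : ℕ, 0 < m → ((cA A s ^ m - 1) ^ k) v ≠ 0 := by
    by_contra hcon
    push Not at hcon
    apply h
    obtain ⟨m, k, hm, hk⟩ := unifA A hS s (by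
      intro v _
      obtain ⟨m, k, hm, hk⟩ := hcon v
      exact ⟨m, k, hm, hk⟩)
    refine ⟨m, k, hm, fun M a ha => ?_⟩
    have h1 := E_iter A (s ^ (M * m)) k (Additive.ofMul ⟨a, ha⟩)
    rw [cA_pow, hk M] at h1
    exact h1.symm
  obtain ⟨v, hv⟩ := hex
  rcases H785R3.GrowthP.exists_root (cA A s) (cA_injective A s) v with h1 | ⟨x, _, hx, h1⟩
  · obtain ⟨m, k, hm, h2⟩ := torsion_kill (cA A s) (cA_injective A s) v h1
    exact absurd h2 (hv m k hm)
  · refine ⟨x, hx, ?_⟩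
    obtain ⟨f, hf, a, ha⟩ := functional_of_eig (cA A s)
      (TH53.UG.eig_of_root (cA A s) v h1 (minpoly.aeval ℤ x))
    refine ⟨fun a => f (Additive.ofMul a), fun a b => ?_, fun a => ?_, a.toMul, ha⟩
    · show f (Additive.ofMul (a * b)) = _
      rw [ofMul_mul, map_add]
    · show f (Additive.ofMul (MulAut.conjNormal s a)) = _
      rw [← hf]
      congr 1

/-! ### descent -/

section
universe u
variable {P : Type u} [Group P]

lemma phi_pow {N : Subgroup P} (φ : N → ℂ) (hφ : ∀ a b, φ (a * b) = φ a + φ b) (a : N) (n : ℕ) :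
    φ (a ^ n) = n * φ a := by
  induction n with
  | zero =>
    have := hφ 1 1
    rw [mul_one] at this
    have h3 : φ 1 = 0 := by simpa using this
    simp [h3]
  | succ n ih =>
    rw [pow_succ, hφ, ih]
    push_cast
    ring

theorem EF_down (N D1 D2 : Subgroup P) [N.Normal] [D1.Normal] [D2.Normal] (hN : N ≤ D1)
    (hfin : N.relIndex D1 ≠ 0) (h12 : D2 ≤ D1) (hc : ⁅D1, D1⁆ ≤ D2)
    (hab : ∀ x ∈ D2, ∀ y ∈ D2, x * y = y * x) (s : P) (w : ℂ) (h : EF N s w) :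
    EF D2 s w ∨ EF D1 s w := by
  classical
  obtain ⟨φ, hφ, hs, a0, ha0⟩ := h
  set n := N.relIndex D1 with hn
  have hpow : ∀ x ∈ D1, x ^ n ∈ N := by
    intro x hx
    have h1 := (N.subgroupOf D1).pow_index_mem (⟨x, hx⟩ : D1)
    exact h1
  have hcongr : ∀ (x y : P) (hx : x ∈ N) (hy : y ∈ N), x = y → φ ⟨x, hx⟩ = φ ⟨y, hy⟩ := by
    intro x y hx hy hxy
    subst hxy
    rfl
  have hnz : (n : ℂ) ≠ 0 := by exact_mod_cast hfin
  by_cases hcase : ∃ a : P, ∃ h1 : a ∈ N, a ∈ D2 ∧ φ ⟨a, h1⟩ ≠ 0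
  · left
    obtain ⟨a, haN, haD, ha⟩ := hcase
    refine ⟨fun x => φ ⟨(x : P) ^ n, hpow x (h12 x.2)⟩, fun x y => ?_, fun x => ?_, ⟨a, haD⟩, ?_⟩
    · rw [← hφ]
      apply hcongr
      have hxy : Commute (x : P) y := hab x x.2 y y.2
      exact hxy.mul_pow n
    · show φ ⟨((MulAut.conjNormal s x : D2) : P) ^ n, _⟩ = w * φ ⟨(x : P) ^ n, _⟩
      rw [← hs]
      apply congrArg
      apply Subtype.ext
      show ((MulAut.conjNormal s x : D2) : P) ^ n = _
      rw [MulAut.conjNormal_apply, MulAut.conjNormal_apply, _root_.conj_pow]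
    · show φ ⟨a ^ n, _⟩ ≠ 0
      have h1 : φ ⟨a ^ n, hpow a (h12 haD)⟩ = n * φ ⟨a, haN⟩ := by
        rw [← phi_pow φ hφ]
        rfl
      rw [h1]
      exact mul_ne_zero hnz ha
  · right
    push Not at hcase
    have hadd : ∀ x y : P, ∀ hx : x ∈ D1, ∀ hy : y ∈ D1,
        φ ⟨(x * y) ^ n, hpow _ (D1.mul_mem hx hy)⟩ =
          φ ⟨x ^ n, hpow x hx⟩ + φ ⟨y ^ n, hpow y hy⟩ := by
      intro x y hx hy
      have h1 : (x * y) ^ n * (x ^ n * y ^ n)⁻¹ ∈ D2 := by
        have h2 : QuotientGroup.mk' D2 ((x * y) ^ n * (x ^ n * y ^ n)⁻¹) = 1 := by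
          have h3 : Commute (QuotientGroup.mk' D2 x) (QuotientGroup.mk' D2 y) := by
            have h4 : QuotientGroup.mk' D2 ⁅x, y⁆ = 1 :=
              (QuotientGroup.eq_one_iff _).2 (hc (Subgroup.commutator_mem_commutator hx hy))
            rw [map_commutatorElement, commutatorElement_eq_one_iff_commute] at h4
            exact h4
          rw [map_mul, map_inv, map_mul, map_pow, map_pow, map_pow, map_mul, h3.mul_pow,
            mul_inv_cancel]
        exact (QuotientGroup.eq_one_iff _).1 h2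
      have hN1 := hpow _ (D1.mul_mem hx hy)
      have hN2 : x ^ n * y ^ n ∈ N := N.mul_mem (hpow x hx) (hpow y hy)
      have h5 : φ ⟨(x * y) ^ n * (x ^ n * y ^ n)⁻¹, N.mul_mem hN1 (N.inv_mem hN2)⟩ = 0 :=
        hcase _ _ h1
      have h6 : (⟨(x * y) ^ n, hN1⟩ : N) =
          ⟨(x * y) ^ n * (x ^ n * y ^ n)⁻¹, N.mul_mem hN1 (N.inv_mem hN2)⟩ *
            (⟨x ^ n, hpow x hx⟩ * ⟨y ^ n, hpow y hy⟩) := by
        apply Subtype.ext
        show (x * y) ^ n = (x * y) ^ n * (x ^ n * y ^ n)⁻¹ * (x ^ n * y ^ n)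
        group
      rw [h6, hφ, h5, zero_add, hφ]
    refine ⟨fun x => φ ⟨(x : P) ^ n, hpow x x.2⟩, fun x y => hadd x y x.2 y.2, fun x => ?_,
      ⟨(a0 : P), hN a0.2⟩, ?_⟩
    · show φ ⟨((MulAut.conjNormal s x : D1) : P) ^ n, _⟩ = w * φ ⟨(x : P) ^ n, _⟩
      rw [← hs]
      apply congrArg
      apply Subtype.ext
      show ((MulAut.conjNormal s x : D1) : P) ^ n = _
      rw [MulAut.conjNormal_apply, MulAut.conjNormal_apply, _root_.conj_pow]
    · show φ ⟨(a0 : P) ^ n, _⟩ ≠ 0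
      have h1 : φ ⟨(a0 : P) ^ n, hpow a0 (hN a0.2)⟩ = n * φ a0 := by
        rw [← phi_pow φ hφ]
        rfl
      rw [h1]
      exact mul_ne_zero hnz ha0

/-- pulling back along a surjection -/
theorem EF_comap {Q : Type*} [Group Q] (π : P →* Q) (N : Subgroup P) [N.Normal]
    (N' : Subgroup Q) [N'.Normal] (hN : N.map π = N') (s : P) (w : ℂ) (h : EF N' (π s) w) :
    EF N s w := by
  obtain ⟨φ, hφ, hs, a, ha⟩ := h
  have hmem : ∀ x : N, π x ∈ N' := fun x => by rw [← hN]; exact ⟨x, x.2, rfl⟩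
  refine ⟨fun x => φ ⟨π x, hmem x⟩, fun x y => ?_, fun x => ?_, ?_⟩
  · rw [← hφ]
    apply congrArg
    apply Subtype.ext
    exact map_mul π (x : P) (y : P)
  · show φ ⟨π ((MulAut.conjNormal s x : N) : P), _⟩ = w * φ ⟨π x, _⟩
    rw [← hs]
    apply congrArg
    apply Subtype.ext
    show π ((MulAut.conjNormal s x : N) : P) = _
    rw [MulAut.conjNormal_apply, MulAut.conjNormal_apply, map_mul, map_mul, map_inv]
  · have h1 : (a : Q) ∈ N.map π := by rw [hN]; exact a.2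
    obtain ⟨x, hx, hxa⟩ := h1
    refine ⟨⟨x, hx⟩, ?_⟩
    have h2 : (⟨π x, hmem ⟨x, hx⟩⟩ : N') = a := Subtype.ext hxa
    show φ ⟨π x, _⟩ ≠ 0
    rw [h2]
    exact ha

end

end Pool.Agent.K9h61.GG
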