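import Pool.Agent.K9h61.GG.Misc

/-!
# The two kinds of growth
-/

set_option autoImplicit false
set_option linter.unusedSectionVars false

namespace Pool.Agent.K9h61.GG

open Pool.Agent.H45R3.UG
open Pool.Agent.N600.G3 (CT Crossed)
open Filter Topology
open scoped Pointwise commutatorElement IsMulCommutative

/-- an expanding generator -/
theorem caseB0 {P : Type*} [Group P] (T : Set P) (hfin : T.Finite) (h1T : 1 ∈ T) (hinv : T⁻¹ = T)
    (hgen : Subgroup.closure T = ⊤) {β : ℝ} (hβ : 0 < β) (N : Subgroup P) [N.Normal]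
    (hN : N ≤ commutator P) (hidx : N.relIndex (commutator P) ≠ 0)
    (hab : ∀ x ∈ N, ∀ y ∈ N, x * y = y * x) (s : P) (hs : s ∈ T) (w : ℂ)
    (hw : β ≤ Real.log ‖w‖) (h : EF N s w) :
    Real.log 2 / (88 * QQ β) ≤ H746UG.rho T := by
  obtain ⟨φ, hφ, hφs, hne⟩ := h
  have hw1 : 1 < ‖w‖ := by
    by_contra hcon
    push Not at hcon
    have := Real.log_nonpos (norm_nonneg w) hcon
    linarith
  obtain ⟨ν, h1, h2, h3, c, hc, hcpos⟩ := exists_len T hinv hgen N hN hab (card_map_mk N _ hidx) φ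
    hφ s hs w hw1 hφs hne
  exact len_growth T hfin h1T (commutator P) ν h1 h2 s hs ‖w‖ β hβ (by linarith) hw h3 c
    (CT_pow hinv hc) hcpos

lemma EF_inv {P : Type*} [Group P] {N : Subgroup P} [N.Normal] {s : P} {w : ℂ} (hw : w ≠ 0)
    (h : EF N s w) : EF N s⁻¹ w⁻¹ := by
  obtain ⟨φ, h1, h2, h3⟩ := h
  refine ⟨φ, h1, fun a => ?_, h3⟩
  have h4 := h2 (MulAut.conjNormal s⁻¹ a)
  rw [← cn_mul, mul_inv_cancel, cn_one] at h4
  rw [h4, inv_mul_cancel_left₀ hw]

/-- a generator which is not of modulus one -/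
theorem caseB {P : Type*} [Group P] (T : Set P) (hfin : T.Finite) (h1T : 1 ∈ T) (hinv : T⁻¹ = T)
    (hgen : Subgroup.closure T = ⊤) {β : ℝ} (hβ : 0 < β) (N : Subgroup P) [N.Normal]
    (hN : N ≤ commutator P) (hidx : N.relIndex (commutator P) ≠ 0)
    (hab : ∀ x ∈ N, ∀ y ∈ N, x * y = y * x) (s : P) (hs : s ∈ T) (w : ℂ)
    (hw : β ≤ |Real.log ‖w‖|) (h : EF N s w) :
    Real.log 2 / (88 * QQ β) ≤ H746UG.rho T := by
  have hw0 : w ≠ 0 := by
    rintro rfl
    rw [norm_zero, Real.log_zero, abs_zero] at hw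
    linarith
  rcases le_abs.1 hw with h1 | h1
  · exact caseB0 T hfin h1T hinv hgen hβ N hN hidx hab s hs w h1 h
  · refine caseB0 T hfin h1T hinv hgen hβ N hN hidx hab s⁻¹ ?_ w⁻¹ ?_ (EF_inv hw0 h)
    · rw [← hinv]; exact Set.inv_mem_inv.2 hs
    · rw [norm_inv, Real.log_inv]; exact h1

/-- an expanding commutator -/
theorem caseC (P : Type) [Group P] (T : Set P) (hfin : T.Finite) (h1T : 1 ∈ T) (hinv : T⁻¹ = T)
    (hgen : Subgroup.closure T = ⊤) {β : ℝ} (hβ : 0 < β)
    (hab : ∀ x ∈ (⁅commutator P, commutator P⁆ : Subgroup P),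
      ∀ y ∈ (⁅commutator P, commutator P⁆ : Subgroup P), x * y = y * x)
    (hfg : (⁅commutator P, commutator P⁆ : Subgroup P).FG) (c : commutator P)
    (hc : (c : P) ∈ CT T) (w : ℂ) (hw : β ≤ |Real.log ‖w‖|)
    (h : EF (⁅commutator P, commutator P⁆ : Subgroup P) (c : P) w) :
    Real.log 2 / (88 * QQ β) ≤ H746UG.rho T := by
  classical
  set D2 : Subgroup P := ⁅commutator P, commutator P⁆ with hD2
  have hD2n : D2.Normal := by rw [hD2]; infer_instance
  have hAc : IsMulCommutative D2 := ⟨⟨fun x y => Subtype.ext (hab x x.2 y y.2)⟩⟩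
  have hMf := finiteA hfg
  obtain ⟨φ, hφ, hφs, a0, ha0⟩ := h
  have hw0 : w - 1 ≠ 0 := by
    intro h0
    rw [sub_eq_zero.1 h0, norm_one, Real.log_one, abs_zero] at hw
    linarith
  have hφ1 : φ 1 = 0 := phi_one φ hφ
  let f0 : Additive D2 →+ ℂ :=
    { toFun := fun a => φ a.toMul
      map_zero' := hφ1
      map_add' := fun a b => hφ _ _ }
  have hcomm : ∀ i j : commutator P, Commute (cA D2 (i : P)) (cA D2 (j : P)) := by
    intro i j
    have h1 : cA D2 ((i : P) * j) = cA D2 ((j : P) * i) := by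
      apply LinearMap.ext
      intro a
      apply addA_ext
      rw [cA_coe, cA_coe]
      have h2 : (j : P)⁻¹ * (i : P)⁻¹ * (j * i) ∈ D2 := by
        have := Subgroup.commutator_mem_commutator ((commutator P).inv_mem j.2)
          ((commutator P).inv_mem i.2)
        rw [commutatorElement_def, inv_inv, inv_inv] at this
        rw [hD2]
        convert this using 1
        group
      have h3 := hab _ h2 _ a.toMul.2
      have h4 : (j : P) * i = (i * j) * ((j : P)⁻¹ * (i : P)⁻¹ * (j * i)) := by group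
      rw [h4]
      generalize (i : P) = x at *
      generalize (j : P) = y at *
      generalize ((a.toMul : D2) : P) = z at *
      calc x * y * z * (x * y)⁻¹
          = (x * y) * (z * (y⁻¹ * x⁻¹ * (y * x))) * (y⁻¹ * x⁻¹ * (y * x))⁻¹ * (x * y)⁻¹ := by group
        _ = (x * y) * ((y⁻¹ * x⁻¹ * (y * x)) * z) * (y⁻¹ * x⁻¹ * (y * x))⁻¹ * (x * y)⁻¹ := by
              rw [h3]
        _ = _ := by group
    show _ * _ = _ * _
    rw [← cA_mul, ← cA_mul, h1]
  obtain ⟨f, hfc, hμ, a1, ha1⟩ := common_functional (fun m : commutator P => cA D2 (m : P))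
    hcomm c w f0 (fun a => hφs a.toMul) ⟨Additive.ofMul a0, ha0⟩
  choose μ hμ using hμ
  have hμ_mul : ∀ m m' : commutator P, μ (m * m') = μ m * μ m' := by
    intro m m'
    have h1 := hμ (m * m') a1
    rw [Subgroup.coe_mul, cA_mul, Module.End.mul_apply, hμ, hμ, ← mul_assoc] at h1
    exact (mul_right_cancel₀ ha1 h1).symm
  have hμ_one : μ 1 = 1 := by
    have h1 := hμ 1 a1
    rw [Subgroup.coe_one, cA_one, Module.End.one_apply] at h1
    have h2 : (1 : ℂ) * f a1 = μ 1 * f a1 := by rw [one_mul]; exact h1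
    exact (mul_right_cancel₀ ha1 h2).symm
  let μ' : commutator P →* ℂ := { toFun := μ, map_one' := hμ_one, map_mul' := hμ_mul }
  let χ : commutator P →* ℂˣ := μ'.toHomUnits
  have hχ : ∀ m, (χ m : ℂ) = μ m := fun m => rfl
  have hμc : μ c = w := by
    have h1 := hμ c a1
    rw [hfc] at h1
    exact (mul_right_cancel₀ ha1 h1).symm
  have hbmem : ∀ m : commutator P, ⁅(c : P), (m : P)⁆ ∈ D2 := fun m => by
    rw [hD2]; exact Subgroup.commutator_mem_commutator c.2 m.2
  let b : commutator P → ℂ := fun m => f (Additive.ofMul ⟨⁅(c : P), (m : P)⁆, hbmem m⟩)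
  have hb : Crossed χ b := by
    intro m m'
    show f (Additive.ofMul ⟨⁅(c : P), ((m * m' : commutator P) : P)⁆, _⟩) =
      f (Additive.ofMul ⟨⁅(c : P), (m : P)⁆, _⟩) + (χ m : ℂ) *
        f (Additive.ofMul ⟨⁅(c : P), (m' : P)⁆, _⟩)
    rw [hχ, ← hμ, ← map_add]
    congr 1
    apply addA_ext
    show ⁅(c : P), ((m * m' : commutator P) : P)⁆ = ⁅(c : P), (m : P)⁆ *
      ((m : P) * ⁅(c : P), (m' : P)⁆ * (m : P)⁻¹)
    rw [Subgroup.coe_mul]
    simp only [commutatorElement_def]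
    group
  have hbc : b c = 0 := by
    show f (Additive.ofMul ⟨⁅(c : P), (c : P)⁆, hbmem c⟩) = 0
    have h1 : (Additive.ofMul ⟨⁅(c : P), (c : P)⁆, hbmem c⟩ : Additive D2) = 0 := by
      apply addA_ext
      show ⁅(c : P), (c : P)⁆ = 1
      exact commutatorElement_self _
    rw [h1, map_zero]
  have hvc : β ≤ |Real.log ‖(χ c : ℂ)‖| := by
    rw [hχ, hμc]
    exact hw
  have hne : ∃ m, b m ≠ 0 := by
    have hD : D2 ≤ commutator P := by rw [hD2]; exact Subgroup.commutator_le_left _ _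
    refine ⟨⟨(a1.toMul : D2), hD (a1.toMul : D2).2⟩, ?_⟩
    show f (Additive.ofMul ⟨⁅(c : P), ((a1.toMul : D2) : P)⁆, _⟩) ≠ 0
    have h1 : (Additive.ofMul ⟨⁅(c : P), ((a1.toMul : D2) : P)⁆,
        hbmem ⟨(a1.toMul : D2), hD (a1.toMul : D2).2⟩⟩ : Additive D2) = cA D2 (c : P) a1 - a1 := by
      apply addA_ext
      rw [sub_eq_add_neg]
      show ⁅(c : P), ((a1.toMul : D2) : P)⁆ = ((c : P) * ((a1.toMul : D2) : P) * (c : P)⁻¹) *
        ((a1.toMul : D2) : P)⁻¹
      rw [commutatorElement_def]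
    rw [h1, map_sub, hfc]
    have h2 : w * f a1 - f a1 = (w - 1) * f a1 := by ring
    rw [h2]
    exact mul_ne_zero hw0 ha1
  exact t_tha P T hfin h1T hinv hgen β hβ χ b hb c hc hbc hvc hne

end Pool.Agent.K9h61.GG
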