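import Pool.Agent.N600.G3.Stm

/-!
# Subset sums of complex numbers of many different sizes, and sign choices
-/

set_option autoImplicit false

namespace Pool.Agent.K9h61.GG

open Finset
open Pool.Agent.N600.G3

universe u

/-- the size class of a complex number -/
noncomputable def lv (z : ℂ) : ℤ := ⌊Real.log ‖z‖ / Real.log 2⌋

lemma lv_le {z : ℂ} (hz : z ≠ 0) : (2 : ℝ) ^ lv z ≤ ‖z‖ := by
  have h2 : (0 : ℝ) < Real.log 2 := Real.log_pos (by norm_num)
  have h1 : (lv z : ℝ) ≤ Real.log ‖z‖ / Real.log 2 := Int.floor_le _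
  rw [le_div_iff₀ h2] at h1
  have h3 : 0 < ‖z‖ := norm_pos_iff.2 hz
  rw [← Real.rpow_intCast]
  rw [← Real.log_le_log_iff (by positivity) h3, Real.log_rpow (by norm_num)]
  exact h1

lemma lt_lv {z : ℂ} (hz : z ≠ 0) : ‖z‖ < (2 : ℝ) ^ (lv z + 1) := by
  have h2 : (0 : ℝ) < Real.log 2 := Real.log_pos (by norm_num)
  have h1 : Real.log ‖z‖ / Real.log 2 < (lv z : ℝ) + 1 := Int.lt_floor_add_one _
  rw [div_lt_iff₀ h2] at h1
  have h3 : 0 < ‖z‖ := norm_pos_iff.2 hz
  rw [← Real.rpow_intCast, ← Real.log_lt_log_iff h3 (by positivity), Real.log_rpow (by norm_num)]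
  push_cast
  exact h1

/-- sums of different negative powers of two -/
lemma geom_lt {ι : Type*} (Q : Finset ι) (j : ι → ℤ) (J : ℤ) (hinj : Set.InjOn j Q)
    (hlt : ∀ r ∈ Q, j r + 2 ≤ J) : ∑ r ∈ Q, (2 : ℝ) ^ (j r + 1) < (2 : ℝ) ^ J := by
  classical
  have h1 : ∀ r ∈ Q, (2 : ℝ) ^ (j r + 1) = (2 : ℝ) ^ (J - 1) * (1 / 2) ^ (J - 2 - j r).toNat := by
    intro r hr
    have h2 : ((J - 2 - j r).toNat : ℤ) = J - 2 - j r := Int.toNat_of_nonneg (by
      have := hlt r hr; omega)
    rw [one_div, inv_pow, ← zpow_natCast, h2, ← zpow_neg, ← zpow_add₀ (by norm_num)]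
    congr 1
    ring
  rw [sum_congr rfl h1, ← mul_sum]
  have h3 : ∑ r ∈ Q, (1 / 2 : ℝ) ^ (J - 2 - j r).toNat =
      ∑ n ∈ Q.image fun r => (J - 2 - j r).toNat, (1 / 2 : ℝ) ^ n := by
    rw [sum_image]
    intro a ha b hb hab
    apply hinj ha hb
    have h4 := hlt a ha
    have h5 := hlt b hb
    simp only at hab
    omega
  rw [h3]
  set P := Q.image fun r => (J - 2 - j r).toNat with hP
  obtain ⟨N, hN⟩ : ∃ N, P ⊆ range N := by
    refine ⟨P.sup id + 1, fun n hn => mem_range.2 ?_⟩
    have : id n ≤ P.sup id := le_sup hn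
    exact Nat.lt_succ_of_le this
  have h6 : ∑ n ∈ P, (1 / 2 : ℝ) ^ n < 2 := by
    refine lt_of_le_of_lt (sum_le_sum_of_subset_of_nonneg hN fun n _ _ => by positivity) ?_
    rw [geom_sum_eq (by norm_num)]
    have h7 : (0 : ℝ) < (1 / 2) ^ N := by positivity
    rw [div_lt_iff_of_neg (by norm_num)]
    linarith
  have h8 : (2 : ℝ) ^ J = (2 : ℝ) ^ (J - 1) * 2 := by
    rw [← zpow_add_one₀ (by norm_num)]
    congr 1
    ring
  rw [h8]
  exact mul_lt_mul_of_pos_left h6 (by positivity)

/-- subset sums of elements of many sizes -/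
theorem t_fib (R : ℕ) (a : Fin R → ℂ) (ha : ∀ r, a r ≠ 0) (y : ℂ) :
    2 ^ (((Set.range fun r => lv (a r)).ncard + 1) / 2) *
      Nat.card {x : Fin R → Bool // ∑ r, (if x r then a r else 0) = y} ≤ 2 ^ R := by
  classical
  set w : Fin R → ℤ := fun r => lv (a r) with hw
  set I : Finset ℤ := univ.image w with hI
  have hIcard : (Set.range w).ncard = I.card := by
    rw [← Set.ncard_coe_finset]
    simp [hI]
  -- a parity class
  obtain ⟨I', hI'sub, hI'card, e, hI'par⟩ : ∃ I' ⊆ I, (I.card + 1) / 2 ≤ I'.card ∧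
      ∃ e : ℤ, ∀ j ∈ I', j % 2 = e := by
    have h1 : (I.filter fun j => j % 2 = 0).card + (I.filter fun j => ¬ j % 2 = 0).card = I.card :=
      card_filter_add_card_filter_not _
    by_cases h : (I.card + 1) / 2 ≤ (I.filter fun j => j % 2 = 0).card
    · exact ⟨_, filter_subset _ _, h, 0, fun j hj => (mem_filter.1 hj).2⟩
    · refine ⟨I.filter fun j => ¬ j % 2 = 0, filter_subset _ _, by omega, 1, fun j hj => ?_⟩
      have := (mem_filter.1 hj).2
      omega
  -- representatives
  have hrep : ∀ j ∈ I', ∃ r, w r = j := by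
    intro j hj
    obtain ⟨r, _, hr⟩ := mem_image.1 (hI'sub hj)
    exact ⟨r, hr⟩
  choose ρ hρ using hrep
  set P : Finset (Fin R) := I'.attach.image fun j => ρ j.1 j.2 with hP
  have hwρ : ∀ r ∈ P, ∃ h : w r ∈ I', ρ (w r) h = r := by
    intro r hr
    obtain ⟨j, _, rfl⟩ := mem_image.1 hr
    have h1 := hρ j.1 j.2
    refine ⟨by rw [h1]; exact j.2, ?_⟩
    congr 1
  have hPcard : P.card = I'.card := by
    rw [hP, card_image_of_injective, card_attach]
    intro i j hij
    have h1 := hρ i.1 i.2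
    have h2 := hρ j.1 j.2
    simp only at hij
    rw [hij] at h1
    exact Subtype.ext (h1.symm.trans h2)
  have hwinj : Set.InjOn w P := by
    intro r hr s hs hrs
    obtain ⟨h1, h2⟩ := hwρ r hr
    obtain ⟨h3, h4⟩ := hwρ s hs
    rw [← h2, ← h4]
    congr 1
  have hinj : Function.Injective
      (fun (x : {x : Fin R → Bool // ∑ r, (if x r then a r else 0) = y})
        (r : ((Pᶜ : Finset (Fin R)))) => x.1 r.1) := by
    rintro ⟨x, hx⟩ ⟨x', hx'⟩ h
    have hoff : ∀ r, r ∉ P → x r = x' r := fun r hr => congrFun h ⟨r, mem_compl.2 hr⟩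
    apply Subtype.ext
    funext r
    by_contra hne
    set Q : Finset (Fin R) := Finset.univ.filter (fun r => x r ≠ x' r) with hQ
    have hQne : Q.Nonempty := ⟨r, by simpa [hQ] using hne⟩
    obtain ⟨r0, hr0, hmax⟩ := Q.exists_max_image w hQne
    set c : Fin R → ℂ := fun r => (if x r then a r else 0) - (if x' r then a r else 0) with hc
    have hcv : ∀ r ∈ Q, ‖c r‖ = ‖a r‖ := by
      intro r hr
      have hr' : x r ≠ x' r := by simpa [hQ] using hr
      simp only [hc]
      cases hxr : x r <;> cases hxr' : x' r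
      · exact absurd (hxr.trans hxr'.symm) hr'
      · simp
      · simp
      · exact absurd (hxr.trans hxr'.symm) hr'
    have hc0 : ∀ r, r ∉ Q → c r = 0 := by
      intro r hr
      have hr' : x r = x' r := by simpa [hQ] using hr
      simp [hc, hr']
    have hsum : ∑ r, c r = 0 := by
      simp only [hc, Finset.sum_sub_distrib, hx, hx', sub_self]
    have hsumQ : ∑ r ∈ Q, c r = 0 := by
      rw [← hsum]
      exact Finset.sum_subset (Finset.subset_univ _) (fun r _ hr => hc0 r hr)
    rw [← Finset.add_sum_erase Q c hr0] at hsumQ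
    have hQP : ∀ r ∈ Q, r ∈ P := by
      intro r hr
      by_contra hrP
      have hr' : x r ≠ x' r := by simpa [hQ] using hr
      exact hr' (hoff r hrP)
    have h1 : ‖c r0‖ ≤ ∑ r ∈ Q.erase r0, ‖c r‖ := by
      have h2 : c r0 = - ∑ r ∈ Q.erase r0, c r := eq_neg_of_add_eq_zero_left hsumQ
      rw [h2, norm_neg]
      exact norm_sum_le _ _
    rw [hcv r0 hr0] at h1
    have h3 : ∑ r ∈ Q.erase r0, ‖c r‖ ≤ ∑ r ∈ Q.erase r0, (2 : ℝ) ^ (w r + 1) := by
      refine sum_le_sum fun r hr => ?_
      rw [hcv r (mem_of_mem_erase hr)]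
      exact (lt_lv (ha r)).le
    have h4 : ∑ r ∈ Q.erase r0, (2 : ℝ) ^ (w r + 1) < (2 : ℝ) ^ (w r0) := by
      apply geom_lt
      · intro r hr s hs hrs
        exact hwinj (hQP r (mem_of_mem_erase hr)) (hQP s (mem_of_mem_erase hs)) hrs
      · intro r hr
        have h5 := hmax r (mem_of_mem_erase hr)
        have h6 : w r ≠ w r0 := fun h6 => (ne_of_mem_erase hr)
          (hwinj (hQP r (mem_of_mem_erase hr)) (hQP r0 hr0) h6)
        have h7 := hI'par _ (hwρ r (hQP r (mem_of_mem_erase hr))).1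
        have h8 := hI'par _ (hwρ r0 (hQP r0 hr0)).1
        omega
    have h5 := lv_le (ha r0)
    have h6 : (2 : ℝ) ^ (w r0) < (2 : ℝ) ^ (w r0) := by
      calc (2 : ℝ) ^ (w r0) ≤ ‖a r0‖ := h5
        _ ≤ _ := h1
        _ ≤ _ := h3
        _ < _ := h4
    exact lt_irrefl _ h6
  have hcard : Nat.card {x : Fin R → Bool // ∑ r, (if x r then a r else 0) = y} ≤
      2 ^ (Pᶜ : Finset (Fin R)).card := by
    have h1 := Nat.card_le_card_of_injective _ hinj
    refine h1.trans (le_of_eq ?_)
    rw [Nat.card_fun, Nat.card_eq_fintype_card, Nat.card_eq_fintype_card, Fintype.card_bool,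
      Fintype.card_coe]
  have hPc : P.card + (Pᶜ : Finset (Fin R)).card = R := by
    have := card_add_card_compl P
    rwa [Fintype.card_fin] at this
  calc 2 ^ (((Set.range fun r => lv (a r)).ncard + 1) / 2) *
        Nat.card {x : Fin R → Bool // ∑ r, (if x r then a r else 0) = y}
      ≤ 2 ^ P.card * 2 ^ (Pᶜ : Finset (Fin R)).card := by
        refine Nat.mul_le_mul (Nat.pow_le_pow_right (by norm_num) ?_) hcard
        rw [hPcard]
        have : (Set.range fun r => lv (a r)).ncard = I.card := hIcard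
        rw [this]
        exact hI'card
    _ = 2 ^ R := by rw [← pow_add, hPc]

/-! ### signs -/

lemma map_AA {M : Type*} [Group M] (w : M →* Multiplicative ℝ) {K : ℕ} (c : Fin K → M)
    (ε : Fin K → Bool) :
    (w (AA c ε)).toAdd = ∑ j, (w (if ε j then c j else 1)).toAdd := by
  unfold AA
  rw [map_list_prod, List.map_ofFn, List.prod_ofFn, toAdd_prod]
  rfl

theorem flip {M : Type*} [Group M] (w : M →* Multiplicative ℝ) {K : ℕ}
    (c : Fin K → M) (k : Fin K) (β : ℝ) (hk : β ≤ |(w (c k)).toAdd|) (ε : Fin K → Bool)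
    (h : ¬ β / 2 ≤ |(w (AA c ε)).toAdd|) :
    β / 2 ≤ |(w (AA c (Function.update ε k (!ε k)))).toAdd| := by
  have h1 : (w (AA c (Function.update ε k (!ε k)))).toAdd - (w (AA c ε)).toAdd =
      (w (if !ε k then c k else 1)).toAdd - (w (if ε k then c k else 1)).toAdd := by
    rw [map_AA, map_AA, ← sum_sub_distrib, sum_eq_single k]
    · rw [Function.update_self]
    · intro j _ hj
      rw [Function.update_of_ne hj, sub_self]
    · intro h; exact absurd (mem_univ k) h
  have h2 : |(w (if !ε k then c k else 1)).toAdd - (w (if ε k then c k else 1)).toAdd| =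
      |(w (c k)).toAdd| := by
    cases hε : ε k <;> simp
  have h3 : β ≤ |(w (AA c (Function.update ε k (!ε k)))).toAdd - (w (AA c ε)).toAdd| := by
    rw [h1, h2]; exact hk
  have h4 := abs_sub (w (AA c (Function.update ε k (!ε k)))).toAdd (w (AA c ε)).toAdd
  push Not at h
  linarith

/-- half of the characters can be made large at the same time -/
theorem t_eps (M : Type u) [Group M] (K : ℕ) (β : ℝ)
    (w : Fin K → M →* Multiplicative ℝ) (c : Fin K → M) (hc : ∀ i, β ≤ |(w i (c i)).toAdd|) :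
    ∃ ε : Fin K → Bool, K ≤ 2 * (univ.filter fun k : Fin K => β / 2 ≤ |(w k (AA c ε)).toAdd|).card := by
  classical
  by_contra hcon
  push Not at hcon
  have h1 : ∀ k : Fin K, 2 ^ K ≤ 2 * (Finset.univ.filter
      fun ε : Fin K → Bool => β / 2 ≤ |(w k (AA c ε)).toAdd|).card := by
    intro k
    have h2 := Finset.card_filter_add_card_filter_not (s := (Finset.univ : Finset (Fin K → Bool)))
      (fun ε : Fin K → Bool => β / 2 ≤ |(w k (AA c ε)).toAdd|)
    have h3 : (Finset.univ.filter fun ε : Fin K → Bool => ¬ β / 2 ≤ |(w k (AA c ε)).toAdd|).card ≤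
        (Finset.univ.filter fun ε : Fin K → Bool => β / 2 ≤ |(w k (AA c ε)).toAdd|).card := by
      refine Finset.card_le_card_of_injOn (fun ε => Function.update ε k (!ε k)) ?_ ?_
      · intro ε hε
        have h4 : ¬ β / 2 ≤ |(w k (AA c ε)).toAdd| := (mem_filter.1 hε).2
        have h5 := flip (w k) c k β (hc k) ε h4
        exact mem_filter.2 ⟨mem_univ _, h5⟩
      · intro a _ b _ hab
        funext j
        have h4 := congrFun hab j
        by_cases hj : j = k
        · subst hj
          simpa using h4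
        · simpa [Function.update_of_ne hj] using h4
    have h4 : (Finset.univ : Finset (Fin K → Bool)).card = 2 ^ K := by
      rw [Finset.card_univ]
      simp
    omega
  have h6 : ∑ ε : Fin K → Bool,
      (Finset.univ.filter fun k : Fin K => β / 2 ≤ |(w k (AA c ε)).toAdd|).card =
      ∑ k : Fin K, (Finset.univ.filter
        fun ε : Fin K → Bool => β / 2 ≤ |(w k (AA c ε)).toAdd|).card := by
    simp only [Finset.card_filter]
    exact Finset.sum_comm
  have h7 : K * 2 ^ K ≤ 2 * ∑ k : Fin K,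
      (Finset.univ.filter fun ε : Fin K → Bool => β / 2 ≤ |(w k (AA c ε)).toAdd|).card := by
    rw [Finset.mul_sum]
    calc K * 2 ^ K = ∑ _k : Fin K, 2 ^ K := by simp
      _ ≤ _ := Finset.sum_le_sum fun k _ => h1 k
  have h8 : 2 * ∑ ε : Fin K → Bool,
      (Finset.univ.filter fun k : Fin K => β / 2 ≤ |(w k (AA c ε)).toAdd|).card < K * 2 ^ K := by
    rw [Finset.mul_sum]
    calc ∑ ε : Fin K → Bool,
          2 * (Finset.univ.filter fun k : Fin K => β / 2 ≤ |(w k (AA c ε)).toAdd|).card
        < ∑ _ε : Fin K → Bool, K :=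
          Finset.sum_lt_sum_of_nonempty Finset.univ_nonempty fun ε _ => hcon ε
      _ = K * 2 ^ K := by
          rw [Finset.sum_const, Finset.card_univ]
          simp [mul_comm]
  rw [h6] at h8
  exact absurd h7 (not_le.mpr h8)

end Pool.Agent.K9h61.GG
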