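import Pool.Agent.K9h61.GG.Sec
import Pool.Agent.K9h61.GG.Fib
import Pool.Agent.N600.G3.Core

/-!
# The counting theorem, archimedean case
-/

set_option autoImplicit false

namespace Pool.Agent.K9h61.GG

open Pool.Agent.N600.G3
open Pool.Agent.N558.G3 (b_AA)
open scoped Pointwise

theorem entf : S_ENTF.{0} := N488.G3.t_entf N787.G3.t_ent2 (N99.G3.t_ent3 N711.G3.t_ent1)

/-- the constant -/
noncomputable def QQ (β : ℝ) : ℝ := 2 + 2 * Real.log 2 / β

lemma QQ_pos {β : ℝ} (hβ : 0 < β) : 0 < QQ β := by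
  have h2 : (0 : ℝ) < Real.log 2 := Real.log_pos (by norm_num)
  unfold QQ
  positivity

theorem t_cnt (M : Type) [Group M] (β : ℝ) (hβ : 0 < β) (K : ℕ) (χ : Fin K → M →* ℂˣ)
    (b : Fin K → M → ℂ) (hb : ∀ k, Crossed (χ k) (b k)) (c d : Fin K → M)
    (hbc : ∀ i j, b i (c j) = 0) (hbd : ∀ i j, i < j → b i (d j) = 0) (hdd : ∀ i, b i (d i) ≠ 0)
    (hv : ∀ i, β ≤ |Real.log ‖(χ i (c i) : ℂ)‖|) :
    ∃ ε : Fin K → Bool, ∀ R : ℕ,
      Real.log 2 / (4 * QQ β) * ((K * R : ℕ) : ℝ) ≤
        Real.log (Nat.card (Set.range fun δ : Fin R → Fin K → Bool =>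
          (List.ofFn fun r => AA d (δ r) * AA c ε * (AA d (δ r))⁻¹).prod)) := by
  classical
  have h2 : (0 : ℝ) < Real.log 2 := Real.log_pos (by norm_num)
  have hQ := QQ_pos hβ
  let w : Fin K → M →* Multiplicative ℝ := fun k =>
    { toFun := fun x => Multiplicative.ofAdd (Real.log ‖(χ k x : ℂ)‖)
      map_one' := by simp
      map_mul' := by
        intro x y
        rw [map_mul, Units.val_mul, norm_mul, Real.log_mul, ofAdd_add]
        · exact norm_ne_zero_iff.2 (Units.ne_zero _)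
        · exact norm_ne_zero_iff.2 (Units.ne_zero _) }
  obtain ⟨ε, hε⟩ := t_eps M K β w c hv
  refine ⟨ε, fun R => ?_⟩
  set U : M := AA c ε with hU
  have hbU : ∀ k, b k U = 0 := fun k => b_AA (hb k) c (hbc k) ε
  choose g σ hg hX using fun k => N693.G3.t_tri M ℂ (χ k) (b k) (hb k) K d k (hbd k)
  let u : Fin K → ℂ := fun k => (χ k U : ℂ)
  let row : (Fin K → Fin R → Bool) → Fin R → Fin K → Bool := fun δ r j => δ j r
  let P : (Fin R → Fin K → Bool) → M := fun δ =>
    (List.ofFn fun r => AA d (δ r) * U * (AA d (δ r))⁻¹).prod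
  let X : (Fin K → Fin R → Bool) → Fin K → ℂ := fun δ k => b k (P (row δ))
  have hform : ∀ δ k, X δ k = (1 - u k) * ∑ r : Fin R, u k ^ (r : ℕ) *
      (g k (row δ r) + (σ k (row δ r) : ℂ) * (if δ k r then b k (d k) else 0)) := by
    intro δ k
    show b k (List.ofFn fun r => AA d (row δ r) * U * (AA d (row δ r))⁻¹).prod = _
    rw [N693.G3.t_prd M ℂ (χ k) (b k) (hb k) U (hbU k) R (fun r => AA d (row δ r))]
    congr 1
    refine Finset.sum_congr rfl fun r _ => ?_
    rw [hX]
  have hupd : ∀ δ k x, X (Function.update δ k x) k =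
      (1 - u k) * ∑ r : Fin R, u k ^ (r : ℕ) * g k (row δ r) +
      ∑ r : Fin R, (if x r then (1 - u k) * b k (d k) *
        (u k ^ (r : ℕ) * (σ k (row δ r) : ℂ)) else 0) := by
    intro δ k x
    rw [hform, Finset.mul_sum, Finset.mul_sum, ← Finset.sum_add_distrib]
    refine Finset.sum_congr rfl fun r _ => ?_
    have e := hg k (row (Function.update δ k x) r) (row δ r) (fun i hi => by
      show Function.update δ k x i r = δ i r
      rw [Function.update_of_ne hi.ne])
    rw [e.1, e.2, Function.update_self]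
    split_ifs
    · ring
    · ring
  have hdep : ∀ k δ δ', (∀ i ≤ k, δ i = δ' i) → X δ k = X δ' k := by
    intro k δ δ' h
    rw [hform, hform]
    congr 1
    refine Finset.sum_congr rfl fun r _ => ?_
    have e := hg k (row δ r) (row δ' r) (fun i hi => congrFun (h i hi.le) r)
    rw [e.1, e.2, congrFun (h k le_rfl) r]
  let a : (Fin K → Fin R → Bool) → Fin K → Fin R → ℂ := fun δ k r =>
    (1 - u k) * b k (d k) * (u k ^ (r : ℕ) * (σ k (row δ r) : ℂ))
  let m : (Fin K → Fin R → Bool) → Fin K → ℕ := fun δ k =>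
    if β / 2 ≤ |Real.log ‖u k‖| then ((Set.range fun r : Fin R => lv (a δ k r)).ncard + 1) / 2
      else 0
  have hu0 : ∀ k, u k ≠ 0 := fun k => Units.ne_zero _
  have hu1 : ∀ k, β / 2 ≤ |Real.log ‖u k‖| → 1 - u k ≠ 0 := by
    intro k hk h
    rw [← sub_eq_zero.1 h, norm_one, Real.log_one, abs_zero] at hk
    linarith
  have hm : ∀ δ k, 2 ^ m δ k *
      Nat.card {x : Fin R → Bool // X (Function.update δ k x) k = X δ k} ≤
      Fintype.card (Fin R → Bool) := by
    intro δ k
    by_cases hk : β / 2 ≤ |Real.log ‖u k‖|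
    · have hκ : (1 - u k) * b k (d k) ≠ 0 := mul_ne_zero (hu1 k hk) (hdd k)
      have h7 := t_fib R (a δ k)
        (fun r => mul_ne_zero hκ (mul_ne_zero (pow_ne_zero _ (hu0 k)) (Units.ne_zero _)))
        (X δ k - (1 - u k) * ∑ r : Fin R, u k ^ (r : ℕ) * g k (row δ r))
      have h8 : m δ k = ((Set.range fun r : Fin R => lv (a δ k r)).ncard + 1) / 2 := if_pos hk
      rw [← h8] at h7
      have h9 : Nat.card {x : Fin R → Bool // X (Function.update δ k x) k = X δ k} =
          Nat.card {x : Fin R → Bool // ∑ r : Fin R, (if x r then a δ k r else 0) =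
            X δ k - (1 - u k) * ∑ r : Fin R, u k ^ (r : ℕ) * g k (row δ r)} := by
        refine Nat.card_congr (Equiv.subtypeEquivRight fun x => ?_)
        rw [hupd, eq_sub_iff_add_eq, add_comm]
      rw [h9]
      refine h7.trans (le_of_eq ?_)
      simp
    · have h7 : m δ k = 0 := if_neg hk
      rw [h7, pow_zero, one_mul, ← Nat.card_eq_fintype_card]
      exact Nat.card_le_card_of_injective _ Subtype.val_injective
  have hE := entf K (Fin R → Bool) ℂ X m hdep hm
  -- lower bound for the sum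
  have hlow : ∀ k, β / 2 ≤ |Real.log ‖u k‖| → (R : ℝ) / (2 * QQ β) * 2 ^ (K * R) ≤
      ∑ δ : Fin K → Fin R → Bool, (m δ k : ℝ) := by
    intro k hk
    set lam : ℝ := Real.log ‖u k‖ / Real.log 2 with hlam
    have hlog0 : Real.log ‖u k‖ ≠ 0 := by
      intro h0
      rw [h0, abs_zero] at hk
      linarith
    have hlam0 : lam ≠ 0 := div_ne_zero hlog0 h2.ne'
    have hκ : (1 - u k) * b k (d k) ≠ 0 := mul_ne_zero (hu1 k hk) (hdd k)
    have h7 := t_sec lam hlam0 (Fin K → Bool)
      (fun x => (Real.log ‖(1 - u k) * b k (d k)‖ + Real.log ‖(σ k x : ℂ)‖) / Real.log 2) R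
    have hlv : ∀ δ (r : Fin R), lv (a δ k r) = ⌊(r : ℝ) * lam +
        (Real.log ‖(1 - u k) * b k (d k)‖ + Real.log ‖(σ k (row δ r) : ℂ)‖) / Real.log 2⌋ := by
      intro δ r
      unfold lv
      congr 1
      show Real.log ‖(1 - u k) * b k (d k) * (u k ^ (r : ℕ) * (σ k (row δ r) : ℂ))‖ / _ = _
      rw [norm_mul, norm_mul (u k ^ (r : ℕ)), norm_pow, Real.log_mul, Real.log_mul, Real.log_pow,
        hlam]
      · ring
      · exact pow_ne_zero _ (norm_ne_zero_iff.2 (hu0 k))
      · exact norm_ne_zero_iff.2 (Units.ne_zero _)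
      · exact norm_ne_zero_iff.2 hκ
      · exact mul_ne_zero (pow_ne_zero _ (norm_ne_zero_iff.2 (hu0 k)))
          (norm_ne_zero_iff.2 (Units.ne_zero _))
    have h8 : ∑ x : Fin R → Fin K → Bool, ((Set.range fun r : Fin R => ⌊(r : ℝ) * lam +
        (Real.log ‖(1 - u k) * b k (d k)‖ + Real.log ‖(σ k (x r) : ℂ)‖) / Real.log 2⌋).ncard : ℝ) ≤
        ∑ δ : Fin K → Fin R → Bool, 2 * (m δ k : ℝ) := by
      refine le_trans (le_of_eq ?_) (Finset.sum_le_sum (s := Finset.univ)
        (f := fun δ : Fin K → Fin R → Bool =>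
          ((Set.range fun r : Fin R => lv (a δ k r)).ncard : ℝ)) fun δ _ => ?_)
      · refine (Fintype.sum_equiv (Equiv.piComm fun (_ : Fin K) (_ : Fin R) => Bool) _ _
          fun δ => ?_).symm
        congr 3
        funext r
        exact hlv δ r
      · have h9 : m δ k = ((Set.range fun r : Fin R => lv (a δ k r)).ncard + 1) / 2 := if_pos hk
        rw [h9]
        have h10 : (Set.range fun r : Fin R => lv (a δ k r)).ncard ≤
          2 * (((Set.range fun r : Fin R => lv (a δ k r)).ncard + 1) / 2) := by omega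
        exact_mod_cast h10
    rw [← Finset.mul_sum] at h8
    have h9 : (R : ℝ) / QQ β * 2 ^ (K * R) ≤
        (R : ℝ) / (2 + 1 / |lam|) * ((Fintype.card (Fin K → Bool) : ℕ) : ℝ) ^ R := by
      have e1 : ((Fintype.card (Fin K → Bool) : ℕ) : ℝ) ^ R = 2 ^ (K * R) := by
        rw [Fintype.card_fun, Fintype.card_bool, Fintype.card_fin]
        push_cast
        rw [pow_mul]
      rw [e1]
      refine mul_le_mul_of_nonneg_right ?_ (by positivity)
      have e2 : 0 < |lam| := abs_pos.2 hlam0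
      refine div_le_div_of_nonneg_left (by positivity) (by positivity) ?_
      unfold QQ
      have e3 : 1 / |lam| ≤ 2 * Real.log 2 / β := by
        rw [div_le_div_iff₀ e2 hβ, hlam, abs_div, abs_of_pos h2]
        have e4 : 2 * Real.log 2 * (|Real.log ‖u k‖| / Real.log 2) = 2 * |Real.log ‖u k‖| := by
          field_simp
        rw [e4]
        linarith
      linarith
    have h10 : (R : ℝ) / (2 * QQ β) * 2 ^ (K * R) = ((R : ℝ) / QQ β * 2 ^ (K * R)) / 2 := by
      rw [mul_comm 2, ← div_div]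
      ring
    rw [h10]
    linarith
  have hgood : (K : ℝ) / 2 ≤
      ((Finset.univ.filter fun k => β / 2 ≤ |Real.log ‖u k‖|).card : ℝ) := by
    have : (K : ℝ) ≤ 2 * ((Finset.univ.filter fun k => β / 2 ≤ |Real.log ‖u k‖|).card : ℝ) := by
      exact_mod_cast hε
    linarith
  have hsum : (K : ℝ) / 2 * ((R : ℝ) / (2 * QQ β) * 2 ^ (K * R)) ≤
      ∑ δ : Fin K → Fin R → Bool, ∑ k, (m δ k : ℝ) := by
    rw [Finset.sum_comm]
    calc (K : ℝ) / 2 * ((R : ℝ) / (2 * QQ β) * 2 ^ (K * R))
        ≤ ((Finset.univ.filter fun k => β / 2 ≤ |Real.log ‖u k‖|).card : ℝ) *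
            ((R : ℝ) / (2 * QQ β) * 2 ^ (K * R)) :=
          mul_le_mul_of_nonneg_right hgood (by positivity)
      _ = ∑ k ∈ Finset.univ.filter (fun k => β / 2 ≤ |Real.log ‖u k‖|),
            (R : ℝ) / (2 * QQ β) * 2 ^ (K * R) := by
          rw [Finset.sum_const, nsmul_eq_mul]
      _ ≤ ∑ k ∈ Finset.univ.filter (fun k => β / 2 ≤ |Real.log ‖u k‖|),
            ∑ δ : Fin K → Fin R → Bool, (m δ k : ℝ) :=
          Finset.sum_le_sum fun k hk => hlow k (Finset.mem_filter.1 hk).2
      _ ≤ _ := Finset.sum_le_sum_of_subset_of_nonneg (Finset.filter_subset _ _)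
            fun k _ _ => Finset.sum_nonneg fun δ _ => Nat.cast_nonneg _
  set N : ℕ := Nat.card (Set.range X) with hN
  have hNpos : 0 < N := by
    rw [hN, Nat.card_coe_set_eq]
    exact (Set.ncard_pos (Set.finite_range X)).2 (Set.range_nonempty X)
  have hlog : Real.log 2 / (4 * QQ β) * ((K * R : ℕ) : ℝ) ≤ Real.log N := by
    have hB : ((Fintype.card (Fin R → Bool) : ℕ) : ℝ) ^ K = 2 ^ (K * R) := by
      rw [Fintype.card_fun, Fintype.card_bool, Fintype.card_fin]
      push_cast
      rw [← pow_mul, mul_comm]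
    rw [hB] at hE
    have h7 := (mul_le_mul_of_nonneg_left hsum (Real.log_nonneg (by norm_num : (1 : ℝ) ≤ 2))).trans
      hE
    have hp : (0 : ℝ) < 2 ^ (K * R) := by positivity
    have h8 : (2 : ℝ) ^ (K * R) * (Real.log 2 / (4 * QQ β) * ((K * R : ℕ) : ℝ)) =
        Real.log 2 * ((K : ℝ) / 2 * ((R : ℝ) / (2 * QQ β) * 2 ^ (K * R))) := by
      push_cast
      field_simp
      ring
    rw [← h8] at h7
    exact le_of_mul_le_mul_left h7 hp
  refine hlog.trans ?_
  have hsub : Set.range X ⊆ (fun y : M => fun k => b k y) '' Set.range P := by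
    rintro _ ⟨δ, rfl⟩
    exact ⟨P (row δ), ⟨row δ, rfl⟩, rfl⟩
  have hPfin : (Set.range P).Finite := Set.finite_range P
  refine Real.log_le_log (by exact_mod_cast hNpos) ?_
  have h11 : N ≤ Nat.card (Set.range P) := by
    rw [hN, Nat.card_coe_set_eq, Nat.card_coe_set_eq]
    exact (Set.ncard_le_ncard hsub (hPfin.image _)).trans (Set.ncard_image_le hPfin)
  exact_mod_cast h11

end Pool.Agent.K9h61.GG
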