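import Pool.Agent.K9h61.GG.Final
import Pool.Agent.TH53.UG6
import Pool.Agent.W963.GE.Dob

/-!
# Eigenvalues in CM fields, eigenvalues of bounded degree
-/

set_option autoImplicit false
set_option linter.unusedSectionVars false

namespace Pool.Agent.K9h61.GG

open Pool.Agent.TH53.UG Pool.Agent.W963.GE
open Filter Topology Polynomial
open scoped Pointwise commutatorElement TensorProduct ComplexConjugate

/-- the constant term of the minimal polynomial of a unit -/
lemma prod_unit {x : ℂ} (hx : IsIntegral ℤ x) (h0 : x ≠ 0) (hxi : IsIntegral ℤ x⁻¹) :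
    ∏ a ∈ conjs x, ‖a‖ = 1 := by
  -- the value at zero
  have h1 : (((minpoly ℤ x).eval 0 : ℤ) : ℂ) = ∏ a ∈ conjs x, (0 - a) := by
    have h2 : ((minpoly ℤ x).map (Int.castRingHom ℂ)).eval ((0 : ℤ) : ℂ) =
        (((minpoly ℤ x).eval 0 : ℤ) : ℂ) := by
      have := Polynomial.eval_intCast_map (Int.castRingHom ℂ) (minpoly ℤ x) 0
      simpa using this
    rw [← h2, poly_eq hx, eval_prod]
    simp
  -- it divides one
  obtain ⟨q, hq, hq0⟩ := hxi
  have h3 : aeval x (q.reverse) = 0 := by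
    let _ : Invertible x⁻¹ := invertibleOfNonzero (inv_ne_zero h0)
    have h4 := (Polynomial.eval₂_reverse_eq_zero_iff (algebraMap ℤ ℂ) (x⁻¹) q).2 hq0
    rw [invOf_eq_inv, inv_inv] at h4
    exact h4
  obtain ⟨r, hr⟩ := minpoly.isIntegrallyClosed_dvd hx h3
  have h5 : (minpoly ℤ x).eval 0 * r.eval 0 = 1 := by
    rw [← eval_mul, ← hr, ← coeff_zero_eq_eval_zero, coeff_zero_reverse, hq.leadingCoeff]
  have h6 : |(minpoly ℤ x).eval 0| = 1 := Int.isUnit_iff_abs_eq.1 (IsUnit.of_mul_eq_one _ h5)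
  have h7 : ‖(((minpoly ℤ x).eval 0 : ℤ) : ℂ)‖ = 1 := by
    rw [Complex.norm_intCast]
    exact_mod_cast h6
  rw [h1, norm_prod] at h7
  simpa using h7

/-- a conjugate far from the unit circle -/
theorem far_conj {x : ℂ} (hx : IsIntegral ℤ x) (h0 : x ≠ 0) (hxi : IsIntegral ℤ x⁻¹) {c : ℝ}
    (h : c * (minpoly ℤ x).natDegree ≤ Real.log (MM x)) :
    ∃ a : ℂ, aeval a (minpoly ℚ x) = 0 ∧ 2 * c ≤ |Real.log ‖a‖| := by
  have hmin : minpoly ℚ x = (minpoly ℤ x).map (algebraMap ℤ ℚ) :=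
    minpoly.isIntegrallyClosed_eq_field_fractions' ℚ hx
  have hne : (conjs x).Nonempty := by
    rw [← Finset.card_pos, card_conjs hx]
    exact minpoly.natDegree_pos hx
  have ha0 : ∀ a ∈ conjs x, ‖a‖ ≠ 0 := by
    intro a ha h
    have h1 := prod_unit hx h0 hxi
    rw [Finset.prod_eq_zero ha h] at h1
    exact zero_ne_one h1
  have h1 : ∑ a ∈ conjs x, Real.log ‖a‖ = 0 := by
    rw [← Real.log_prod ha0, prod_unit hx h0 hxi, Real.log_one]
  have h2 : Real.log (MM x) = ∑ a ∈ conjs x, Real.log (max 1 ‖a‖) := by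
    rw [MM_prod hx, Real.log_prod]
    intro a _
    exact (lt_max_of_lt_left one_pos).ne'
  have h3 : ∀ a ∈ conjs x, 2 * Real.log (max 1 ‖a‖) = Real.log ‖a‖ + |Real.log ‖a‖| := by
    intro a ha
    have hpos : 0 < ‖a‖ := lt_of_le_of_ne (norm_nonneg a) (Ne.symm (ha0 a ha))
    rcases le_total 1 ‖a‖ with h | h
    · rw [max_eq_right h, abs_of_nonneg (Real.log_nonneg h)]
      ring
    · rw [max_eq_left h, Real.log_one, abs_of_nonpos (Real.log_nonpos hpos.le h)]
      ring
  have h4 : ∑ a ∈ conjs x, |Real.log ‖a‖| = 2 * Real.log (MM x) := by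
    rw [h2, Finset.mul_sum, Finset.sum_congr rfl h3, Finset.sum_add_distrib, h1, zero_add]
  by_contra hcon
  push Not at hcon
  have h5 : ∑ a ∈ conjs x, |Real.log ‖a‖| < ∑ _a ∈ conjs x, 2 * c := by
    refine Finset.sum_lt_sum_of_nonempty hne fun a ha => hcon a ?_
    rw [hmin, aeval_map_algebraMap]
    exact (mem_conjs hx).1 ha
  rw [Finset.sum_const, card_conjs hx, nsmul_eq_mul, h4] at h5
  linarith

/-- the eigenvalues are units -/
lemma unit_of_eig {G : Type} [Group G] (N : Subgroup G) [N.Normal]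
    (hfin : Module.Finite ℤ (Additive (Abelianization N))) (t : G) (z : ℂ)
    (h : Module.End.HasEigenvalue (LinearMap.baseChange ℂ (cj N t) :
        Module.End ℂ (ℂ ⊗[ℤ] Additive (Abelianization N))) z) :
    IsIntegral ℤ z ∧ z ≠ 0 ∧ IsIntegral ℤ z⁻¹ := by
  obtain ⟨f, hf, a, ha⟩ := functional_of_eig (cj N t) h
  have h1 : IsIntegral ℤ z := integral_of_root (cj N t) a (root_of_functional _ f hf ha)
  have hinv : ∀ b, cj N t (cj N t⁻¹ b) = b := by
    intro b
    obtain ⟨b, rfl⟩ := ab_surj N b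
    rw [cj_of, cj_of, ← cn_mul, mul_inv_cancel, cn_one]
  have hz : z ≠ 0 := by
    rintro rfl
    apply ha
    rw [← hinv a, hf, zero_mul]
  have hf' : ∀ b, f (cj N t⁻¹ b) = z⁻¹ * f b := by
    intro b
    have h2 := hf (cj N t⁻¹ b)
    rw [hinv] at h2
    rw [h2, inv_mul_cancel_left₀ hz]
  exact ⟨h1, hz, integral_of_root (cj N t⁻¹) a (root_of_functional _ f hf' ha)⟩

/-- **CM fields and totally real fields** -/
theorem house_cm {G : Type} [Group G] (N : Subgroup G) [N.Normal]
    (hfin : Module.Finite ℤ (Additive (Abelianization N))) (t : G)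
    (hcm : ∃ h : ℚ[X], ∀ z : ℂ, Module.End.HasEigenvalue (LinearMap.baseChange ℂ (cj N t) :
        Module.End ℂ (ℂ ⊗[ℤ] Additive (Abelianization N))) z → conj z = aeval z h) (z : ℂ)
    (h : Module.End.HasEigenvalue (LinearMap.baseChange ℂ (cj N t) :
        Module.End ℂ (ℂ ⊗[ℤ] Additive (Abelianization N))) z) :
    HouseAt (2 / 3 * Real.log 2) z := by
  obtain ⟨h1, h0, hi⟩ := unit_of_eig N hfin t z h
  by_cases hr : ∃ n > 0, z ^ n = 1
  · exact Or.inl hr
  push Not at hr
  right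
  obtain ⟨h', hh⟩ := hcm
  have hall : ∀ z' : ℂ, aeval z' (minpoly ℤ z) = 0 → conj z' = aeval z' h' := by
    intro z' hz'
    apply hh
    obtain ⟨f, hf, a, ha⟩ := functional_of_eig (cj N t) h
    exact eig_of_root (cj N t) a (root_of_functional _ f hf ha) hz'
  have h2 := cm_bound h1 h0 hr hall
  have hM : 0 < MM z := zero_lt_one.trans_le (MM_ge z h1)
  have h3 : Real.log (27 / 4) / 8 * (minpoly ℤ z).natDegree ≤ Real.log (MM z) := by
    have h4 := Real.log_le_log (by positivity) h2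
    rw [Real.log_pow, Real.log_pow] at h4
    push_cast at h4
    linarith
  obtain ⟨a, ha, h5⟩ := far_conj h1 h0 hi h3
  refine ⟨a, ha, le_trans ?_ h5⟩
  have h6 : 8 * Real.log 2 ≤ 3 * Real.log (27 / 4) := by
    have h7 : Real.log ((2 : ℝ) ^ 8) ≤ Real.log ((27 / 4 : ℝ) ^ 3) :=
      Real.log_le_log (by norm_num) (by norm_num)
    rw [Real.log_pow, Real.log_pow] at h7
    push_cast at h7
    linarith
  linarith

lemma QQ_cm : 88 * QQ (2 / 3 * Real.log 2) = 440 := by
  have h2 : (0 : ℝ) < Real.log 2 := Real.log_pos (by norm_num)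
  unfold QQ
  field_simp
  norm_num

/-- **eigenvalues of bounded degree** -/
theorem house_deg : ∃ c : ℝ, 0 < c ∧ ∀ (G : Type) [Group G] (N : Subgroup G) [N.Normal],
    Module.Finite ℤ (Additive (Abelianization N)) → ∀ (t : G) (z : ℂ),
    Module.End.HasEigenvalue (LinearMap.baseChange ℂ (cj N t) :
        Module.End ℂ (ℂ ⊗[ℤ] Additive (Abelianization N))) z →
    ∀ n : ℕ, (minpoly ℚ z).natDegree ≤ n → HouseAt (c / (n * Real.log (2 * n) ^ 3)) z := by
  obtain ⟨c, hc, hdob⟩ := mm_dob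
  refine ⟨2 * c, by positivity, ?_⟩
  intro G _ N _ hfin t z h n hn
  obtain ⟨h1, h0, hi⟩ := unit_of_eig N hfin t z h
  by_cases hr : ∃ n > 0, z ^ n = 1
  · exact Or.inl hr
  push Not at hr
  right
  have hmin : minpoly ℚ z = (minpoly ℤ z).map (algebraMap ℤ ℚ) :=
    minpoly.isIntegrallyClosed_eq_field_fractions' ℚ h1
  have hdeg : (minpoly ℤ z).natDegree ≤ n := by
    rw [hmin, natDegree_map_eq_of_injective (algebraMap ℤ ℚ).injective_int] at hn
    exact hn
  set m := (minpoly ℤ z).natDegree with hm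
  have hm1 : 1 ≤ m := minpoly.natDegree_pos h1
  have hmR : (1 : ℝ) ≤ m := by exact_mod_cast hm1
  have hmn : (m : ℝ) ≤ n := by exact_mod_cast hdeg
  have hlogm : 0 < Real.log (2 * m) := Real.log_pos (by linarith)
  have hlog : Real.log (2 * m) ≤ Real.log (2 * n) := Real.log_le_log (by linarith) (by linarith)
  have h3 : c / (m * Real.log (2 * m) ^ 3) * m ≤ Real.log (MM z) := by
    have hd := hdob z h1 h0 hr
    rw [← hm] at hd
    refine le_trans (le_of_eq ?_) hd
    field_simp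
  obtain ⟨a, ha, h5⟩ := far_conj h1 h0 hi h3
  refine ⟨a, ha, le_trans ?_ h5⟩
  rw [← mul_div_assoc]
  refine div_le_div_of_nonneg_left (by positivity) (by positivity) ?_
  exact mul_le_mul hmn (pow_le_pow_left₀ hlogm.le hlog 3) (by positivity) (by linarith)

lemma rho_nonneg {G : Type*} [Group G] (S : Set G) : 0 ≤ H746UG.rho S :=
  ge_of_tendsto' (H746UG.tendsto_rho S) fun n => by positivity

/-- the bound for eigenvalues of bounded degree -/
theorem gap_deg : ∃ c : ℝ, 0 < c ∧ ∀ (G : Type) [Group G] (S : Set G), S.Finite → S⁻¹ = S →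
    Subgroup.closure S = ⊤ → ∀ (H : Subgroup G) (d : ℕ), H.index ≠ 0 → H.index ≤ d →
    (Group.IsNilpotent (derivedSeries H 2) ∨
      ¬ Group.IsVirtuallyNilpotent (H ⧸ derivedSeries H 3)) → ∀ n : ℕ,
    (∀ i : ℕ, i = 1 ∨ i = 2 → ∀ t : H, (t : G) ∈ (insert 1 S) ^ (4 * (2 * d - 1)) → ∀ z : ℂ,
      Module.End.HasEigenvalue (LinearMap.baseChange ℂ (cj (derivedSeries H i) t) :
        Module.End ℂ (ℂ ⊗[ℤ] Additive (Abelianization (derivedSeries H i)))) z →
      (minpoly ℚ z).natDegree ≤ n) →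
    Group.IsVirtuallyNilpotent G ∨
      c / (n * Real.log (2 * n) ^ 3 * (2 * d - 1)) ≤ H746UG.rho S := by
  obtain ⟨c, hc, hdeg⟩ := house_deg
  have hlog2 : (0 : ℝ) < Real.log 2 := Real.log_pos (by norm_num)
  refine ⟨Real.log 2 / (176 / Real.log 2 ^ 3 + 176 * Real.log 2 / c), by positivity, ?_⟩
  intro G _ S hfin hsym hgen H d hH hd hnil n hn
  have hd1 : (1 : ℝ) ≤ d := by
    have : 1 ≤ d := by omega
    exact_mod_cast this
  have hpos : (0 : ℝ) < 2 * d - 1 := by linarith
  rcases Nat.eq_zero_or_pos n with h0 | h0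
  · right
    subst h0
    simpa using rho_nonneg S
  have hn1 : (1 : ℝ) ≤ n := by exact_mod_cast h0
  have hL : Real.log 2 ≤ Real.log (2 * n) := Real.log_le_log (by norm_num) (by linarith)
  have hLpos : 0 < Real.log (2 * n) := by linarith
  have hβ : 0 < c / (n * Real.log (2 * n) ^ 3) := by positivity
  rcases final G S hfin hsym hgen H d hH hd hnil hβ (fun i hi hM t ht z hz =>
    hdeg H (derivedSeries H i) hM t z hz n (hn i hi t ht z hz)) with h | h
  · exact Or.inl h
  · right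
    refine le_trans ?_ h
    rw [div_div]
    refine div_le_div_of_nonneg_left hlog2.le ?_ ?_
    · have := QQ_pos hβ
      positivity
    · have h1 : 88 * QQ (c / (n * Real.log (2 * n) ^ 3)) =
          176 + 176 * Real.log 2 / c * (n * Real.log (2 * n) ^ 3) := by
        unfold QQ
        field_simp
        ring
      have h2 : Real.log 2 ^ 3 ≤ n * Real.log (2 * n) ^ 3 := by
        have h3 : Real.log 2 ^ 3 ≤ Real.log (2 * n) ^ 3 := pow_le_pow_left₀ hlog2.le hL 3
        have h4 : 0 ≤ Real.log (2 * n) ^ 3 := by positivity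
        nlinarith
      have h3 : (176 : ℝ) ≤ 176 / Real.log 2 ^ 3 * (n * Real.log (2 * n) ^ 3) := by
        rw [div_mul_eq_mul_div, le_div_iff₀ (by positivity)]
        linarith
      rw [h1]
      have h4 : (176 + 176 * Real.log 2 / c * (n * Real.log (2 * n) ^ 3)) ≤
          (176 / Real.log 2 ^ 3 + 176 * Real.log 2 / c) * (n * Real.log (2 * n) ^ 3) := by
        rw [add_mul]
        linarith
      calc (176 + 176 * Real.log 2 / c * (n * Real.log (2 * n) ^ 3)) * (2 * d - 1)
          ≤ ((176 / Real.log 2 ^ 3 + 176 * Real.log 2 / c) * (n * Real.log (2 * n) ^ 3)) *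
            (2 * d - 1) := mul_le_mul_of_nonneg_right h4 hpos.le
        _ = _ := by ring

end Pool.Agent.K9h61.GG
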