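import Pool.Agent.K9h61.GG.Cases

/-!
# Polycyclic groups of derived length three
-/

set_option autoImplicit false
set_option linter.unusedSectionVars false

namespace Pool.Agent.K9h61.GG

open Pool.Agent.H45R3.UG
open Pool.Agent.N600.G3 (CT Crossed)
open Filter Topology Polynomial
open scoped Pointwise commutatorElement IsMulCommutative

/-- `z` is a root of unity or has a conjugate `w` with `|log |w|| ≥ β` -/
def HouseAt (β : ℝ) (z : ℂ) : Prop :=
  (∃ n > 0, z ^ n = 1) ∨ ∃ w : ℂ, aeval w (minpoly ℚ z) = 0 ∧ β ≤ |Real.log ‖w‖|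

lemma finset_of_fg {G : Type} [Group G] {H : Subgroup G} (h : H.FG) :
    ∃ S : Finset G, Subgroup.closure (S : Set G) = H := h

/-- the derived subgroup is virtually nilpotent if short commutators act quasi-unipotently -/
theorem vn_D1 (P : Type) [Group P] (T : Set P) (hgen : Subgroup.closure T = ⊤)
    (hNS : ∀ K : Subgroup P, K.FG)
    (hab : ∀ x ∈ (⁅commutator P, commutator P⁆ : Subgroup P),
      ∀ y ∈ (⁅commutator P, commutator P⁆ : Subgroup P), x * y = y * x)
    (hq : ∀ c ∈ CT T, QN (⁅commutator P, commutator P⁆ : Subgroup P) c) :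
    ∃ K : Subgroup (commutator P), K.FiniteIndex ∧ Group.IsNilpotent K := by
  classical
  set D2 : Subgroup P := ⁅commutator P, commutator P⁆ with hD2
  have hD2n : D2.Normal := by rw [hD2]; infer_instance
  set D := commutator P with hD
  have hle : D2 ≤ D := by rw [hD2]; exact Subgroup.commutator_le_left _ _
  -- generators of `D`
  have h1 : Subgroup.closure (Group.conjugatesOfSet (CT T)) = D := by
    apply le_antisymm
    · have : Subgroup.normalClosure (CT T) ≤ D :=
        Subgroup.normalClosure_le_normal (N600.G3.CT_sub T)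
      exact this
    · exact N600.G3.comm_le hgen
  obtain ⟨S, hSsub, hS⟩ := fg_subset (s := Group.conjugatesOfSet (CT T)) (by
    rw [h1]; exact hNS D)
  rw [h1] at hS
  have hSq : ∀ s ∈ S, QN D2 s := by
    intro s hs
    have h2 := hSsub (Finset.mem_coe.2 hs)
    rw [Group.mem_conjugatesOfSet_iff] at h2
    obtain ⟨a, ha, hconj⟩ := h2
    obtain ⟨x, hx⟩ := isConj_iff.1 hconj
    rw [← hx]
    exact QN_conj (hq a ha) x
  have hSD : ∀ s ∈ S, s ∈ D := fun s hs => by
    rw [← hS]; exact Subgroup.subset_closure hs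
  set N : Subgroup D := D2.subgroupOf D with hN
  have hNab : ∀ x y : N, x * y = y * x := by
    intro x y
    apply Subtype.ext
    apply Subtype.ext
    exact hab _ x.2 _ y.2
  have hNnil : Group.IsNilpotent N := by
    have : IsMulCommutative N := ⟨⟨hNab⟩⟩
    have h3 : Group.IsNilpotent N := CommGroup.isNilpotent
    exact h3
  have hNfg : N.FG := by
    have h3 : Group.FG D2 := (Group.fg_iff_subgroup_fg _).2 (hNS D2)
    have e := Subgroup.subgroupOfEquivOfLe hle
    have h4 : Group.FG N := Group.fg_of_surjective (f := e.symm.toMonoidHom) e.symm.surjective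
    exact (Group.fg_iff_subgroup_fg _).1 h4
  obtain ⟨T₀, hT₀⟩ := hNfg
  have hgen' : Subgroup.closure ((S.subtype (· ∈ D) : Finset D) : Set D) = ⊤ := by
    have e1 : ((S.subtype (· ∈ D) : Finset D) : Set D) =
        (Subtype.val : D → P) ⁻¹' (S : Set P) := by
      ext x
      simp
    rw [e1]
    have e2 := Subgroup.closure_closure_coe_preimage (k := (S : Set P))
    rw [hS] at e2
    exact e2
  have hfin : Finite (commutator (D ⧸ N)) := by
    refine finite_comm_quot N ?_
    have h5 : commutator D ≤ N := by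
      intro x hx
      have h3 : (x : P) ∈ (commutator D).map D.subtype := ⟨x, hx, rfl⟩
      rw [Subgroup.map_subtype_commutator] at h3
      rw [hN, Subgroup.mem_subgroupOf, hD2]
      exact h3
    rw [Subgroup.relIndex_eq_one.2 h5]
    exact one_ne_zero
  refine step_vn (S.subtype (· ∈ D)) hgen' N hNnil T₀ hT₀ hfin ?_
  intro s hs M _
  obtain ⟨m, k, hm, h⟩ := hSq (s : P) (Finset.mem_subtype.1 hs)
  refine ⟨m, k, hm, fun a ha => ?_⟩
  have h2 := h M (a : P) ha
  have h3 := E_map D.subtype (s ^ (M * m)) a k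
  rw [map_pow] at h3
  exact Subtype.ext (h3.trans h2)

theorem core (P : Type) [Group P] (T : Set P) (hfin : T.Finite) (h1T : 1 ∈ T) (hinv : T⁻¹ = T)
    (hgen : Subgroup.closure T = ⊤) (hNS : ∀ K : Subgroup P, K.FG)
    (hab : ∀ x ∈ (⁅commutator P, commutator P⁆ : Subgroup P),
      ∀ y ∈ (⁅commutator P, commutator P⁆ : Subgroup P), x * y = y * x)
    {β : ℝ} (hβ : 0 < β) (h1 : ∀ t ∈ T ^ 4, ∀ w, EF (commutator P) t w → HouseAt β w)
    (h2 : ∀ t ∈ T ^ 4, ∀ w, EF (⁅commutator P, commutator P⁆ : Subgroup P) t w → HouseAt β w)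
    (hvn : ¬ VirtNilp P) : Real.log 2 / (88 * QQ β) ≤ H746UG.rho T := by
  classical
  have hconj : ∀ {G : Type} [Group G] (N : Subgroup G) [N.Normal] (hN : N.FG) (t : G) (w : ℂ),
      (∀ n > 0, w ^ n ≠ 1) → HouseAt β w → EF N t w →
      ∃ w', β ≤ |Real.log ‖w'‖| ∧ EF N t w' := by
    intro G _ N _ hN t w hw hh hE
    rcases hh with ⟨n, hn, h0⟩ | ⟨w', hw', hB'⟩
    · exact absurd h0 (hw n hn)
    · exact ⟨w', hB', EF_conj hN hE hw'⟩
  by_cases hq : ∀ c ∈ CT T, QN (⁅commutator P, commutator P⁆ : Subgroup P) c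
  swap
  · push Not at hq
    obtain ⟨c, hc, hno⟩ := hq
    have hAc : IsMulCommutative (⁅commutator P, commutator P⁆ : Subgroup P) :=
      ⟨⟨fun x y => Subtype.ext (hab x x.2 y y.2)⟩⟩
    obtain ⟨w, hw, hE⟩ := EF_of_not_qu _ (hNS _) c hno
    obtain ⟨w', hw', hE'⟩ := hconj _ (hNS _) c w hw (h2 _ (CT_pow hinv hc) _ hE) hE
    exact caseC P T hfin h1T hinv hgen hβ hab (hNS _) ⟨c, N600.G3.CT_sub T hc⟩ hc w' hw' hE'
  have hv := vn_D1 P T hgen hNS hab hq
  obtain ⟨N, hN1, hN2, hN3, hN4⟩ := charcore (G := P) (D := commutator P) inferInstance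
    ((Group.fg_iff_subgroup_fg _).2 (hNS _)) hv
  -- the quotient
  let π : P →* P ⧸ (⁅N, N⁆ : Subgroup P) := QuotientGroup.mk' _
  have hsurj : Function.Surjective π := QuotientGroup.mk'_surjective _
  have hker : π.ker = ⁅N, N⁆ := QuotientGroup.ker_mk' _
  have hvn' : ¬ VirtNilp (P ⧸ (⁅N, N⁆ : Subgroup P)) := fun h => hvn (hallV hN4 h)
  set N' : Subgroup (P ⧸ (⁅N, N⁆ : Subgroup P)) := N.map π with hN'
  have hN'n : N'.Normal := Subgroup.Normal.map hN1 π hsurj
  have hAc : IsMulCommutative N' := by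
    rw [← Subgroup.commutator_self_eq_bot_iff, hN', ← Subgroup.map_commutator,
      Subgroup.map_eq_bot_iff, hker]
  have hN'ab : ∀ x ∈ N', ∀ y ∈ N', x * y = y * x := by
    intro x hx y hy
    have := hAc.is_comm.comm (⟨x, hx⟩ : N') ⟨y, hy⟩
    exact congrArg Subtype.val this
  have hN'nil : Group.IsNilpotent N' := CommGroup.isNilpotent
  have hN'fg : N'.FG := by
    obtain ⟨F, hF⟩ := hNS N
    refine ⟨F.image π, ?_⟩
    rw [Finset.coe_image, ← MonoidHom.map_closure, hF]
  have hidx : N'.relIndex (commutator (P ⧸ (⁅N, N⁆ : Subgroup P))) ≠ 0 := by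
    rw [← comm_map π hsurj, ← Subgroup.relIndex_comap, hN', Subgroup.comap_map_eq, hker,
      sup_eq_left.2 (Subgroup.commutator_le_left N N)]
    exact hN3
  have hN'D : N' ≤ commutator (P ⧸ (⁅N, N⁆ : Subgroup P)) := by
    rw [← comm_map π hsurj]
    exact Subgroup.map_mono hN2
  have hgen' : Subgroup.closure (π '' T) = ⊤ := by
    rw [← MonoidHom.map_closure, hgen, ← MonoidHom.range_eq_map]
    exact MonoidHom.range_eq_top.2 hsurj
  have hinv' : (π '' T)⁻¹ = π '' T := by
    rw [← Set.image_inv, hinv]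
  have h1' : (1 : P ⧸ (⁅N, N⁆ : Subgroup P)) ∈ π '' T := ⟨1, h1T, map_one π⟩
  obtain ⟨s, hs, hno⟩ : ∃ s ∈ T, ¬ QN N' (π s) := by
    by_contra hcon
    push Not at hcon
    apply hvn'
    obtain ⟨T₀, hT₀⟩ := hN'fg
    refine step_vn (hfin.image π).toFinset (by rw [Set.Finite.coe_toFinset]; exact hgen') N'
      hN'nil T₀ hT₀ (finite_comm_quot N' hidx) ?_
    intro s hs M _
    rw [Set.Finite.mem_toFinset] at hs
    obtain ⟨s, hs, rfl⟩ := hs
    obtain ⟨m, k, hm, h⟩ := hcon s hs
    exact ⟨m, k, hm, fun a ha => h M a ha⟩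
  obtain ⟨w, hw, hE⟩ := EF_of_not_qu N' hN'fg (π s) hno
  have hE1 : EF N s w := EF_comap π N N' hN'.symm s w hE
  have hs4 : s ∈ T ^ 4 := by
    have h5 := Set.pow_subset_pow_right h1T (show 1 ≤ 4 by norm_num)
    rw [pow_one] at h5
    exact h5 hs
  have hgood : HouseAt β w := by
    rcases EF_down N (commutator P) (⁅commutator P, commutator P⁆ : Subgroup P) hN2 hN3
      (Subgroup.commutator_le_left _ _) le_rfl hab s w hE1 with h | h
    · exact h2 _ hs4 _ h
    · exact h1 _ hs4 _ h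
  obtain ⟨w', hw', hE'⟩ := hconj N' hN'fg (π s) w hw hgood hE
  exact (caseB (π '' T) (hfin.image π) h1' hinv' hgen' hβ N' hN'D hidx hN'ab (π s) ⟨s, hs, rfl⟩
    w' hw' hE').trans (rho_image_le π T hfin ⟨1, h1T⟩)

end Pool.Agent.K9h61.GG
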