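import Pool.Agent.K9h61.GG.Core

/-!
# The growth gap
-/

set_option autoImplicit false
set_option linter.unusedSectionVars false

namespace Pool.Agent.K9h61.GG

open Pool.Agent.H45R3.UG
open Pool.Agent.N600.G3 (CT Crossed inv_mem_pow)
open Pool.Agent.Helper111.EN.NSc (NS)
open Filter Topology Polynomial
open scoped Pointwise commutatorElement IsMulCommutative TensorProduct

/-- the abelianization of a normal subgroup, seen in a quotient -/
theorem fg_ab {G Q : Type*} [Group G] [Group Q] (π : G →* Q) (D : Subgroup G)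
    (hker : ∀ x ∈ D, π x = 1 → x ∈ (⁅D, D⁆ : Subgroup G)) (hfg : (D.map π).FG) :
    Module.Finite ℤ (Additive (Abelianization D)) := by
  let f : D →* D.map π := π.subgroupMap D
  have hf : Function.Surjective f := π.subgroupMap_surjective D
  have h1 : Group.FG (D.map π) := (Group.fg_iff_subgroup_fg _).2 hfg
  let g : D →* Abelianization D := Abelianization.of
  have hk : f.ker ≤ g.ker := by
    intro x hx
    have h2 : π (x : G) = 1 := by
      have := congrArg Subtype.val ((MonoidHom.mem_ker).1 hx)
      exact this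
    have h3 := hker x x.2 h2
    rw [← Subgroup.map_subtype_commutator] at h3
    obtain ⟨y, hy, hyx⟩ := h3
    have h4 : y = x := Subtype.ext hyx
    subst h4
    rw [MonoidHom.mem_ker]
    exact (QuotientGroup.eq_one_iff y).2 hy
  let φ : D.map π →* Abelianization D := f.liftOfSurjective hf ⟨g, hk⟩
  have hφ : ∀ x, φ (f x) = g x := fun x =>
    MonoidHom.liftOfRightInverse_comp_apply f _ _ ⟨g, hk⟩ x
  have h5 : Group.FG (Abelianization D) := by
    refine Group.fg_of_surjective (f := φ) ?_
    intro y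
    obtain ⟨x, rfl⟩ := QuotientGroup.mk_surjective (s := commutator D) y
    exact ⟨f x, hφ x⟩
  rw [Module.Finite.iff_addGroup_fg]
  infer_instance

lemma derived_two {G : Type*} [Group G] :
    derivedSeries G 2 = ⁅commutator G, commutator G⁆ := by
  rw [derivedSeries_succ, derivedSeries_one]

theorem final (G : Type) [Group G] (S : Set G) (hfin : S.Finite) (hsym : S⁻¹ = S)
    (hgen : Subgroup.closure S = ⊤) (H : Subgroup G) (d : ℕ) (hH : H.index ≠ 0)
    (hd : H.index ≤ d)
    (hnil : Group.IsNilpotent (derivedSeries H 2) ∨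
      ¬ Group.IsVirtuallyNilpotent (H ⧸ derivedSeries H 3))
    {β : ℝ} (hβ : 0 < β)
    (hgood : ∀ i : ℕ, i = 1 ∨ i = 2 →
      Module.Finite ℤ (Additive (Abelianization (derivedSeries H i))) →
      ∀ t : H, (t : G) ∈ (insert 1 S) ^ (4 * (2 * d - 1)) → ∀ z : ℂ,
      Module.End.HasEigenvalue (LinearMap.baseChange ℂ (cj (derivedSeries H i) t) :
        Module.End ℂ (ℂ ⊗[ℤ] Additive (Abelianization (derivedSeries H i)))) z → HouseAt β z) :
    Group.IsVirtuallyNilpotent G ∨
      Real.log 2 / (88 * QQ β * (2 * d - 1)) ≤ H746UG.rho S := by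
  classical
  rcases S.eq_empty_or_nonempty with hS | hne
  · left
    have htriv : ∀ x : G, x = 1 := by
      intro x
      have hx : x ∈ Subgroup.closure S := by rw [hgen]; exact Subgroup.mem_top x
      rw [hS, Subgroup.closure_empty, Subgroup.mem_bot] at hx
      exact hx
    have hs : Subsingleton G := ⟨fun a b => by rw [htriv a, htriv b]⟩
    have : Group.IsNilpotent G := inferInstance
    exact this.isVirtuallyNilpotent
  have hd1 : 1 ≤ d := by omega
  set T := W963.GE.TT S H d with hT
  have hTfin : T.Finite := W963.GE.TT_finite S hfin H d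
  have hTgen : Subgroup.closure T = ⊤ := W963.GE.TT_gen S hgen H hH hd
  have h1T : (1 : H) ∈ T := by
    show ((1 : H) : G) ∈ (insert 1 S) ^ (2 * d - 1)
    have : (1 : G) ∈ insert 1 S := Set.mem_insert _ _
    simpa using Set.pow_mem_pow (n := 2 * d - 1) this
  have hinv1 : (insert 1 S)⁻¹ = insert 1 S := by
    rw [Set.inv_insert, inv_one, hsym]
  have hTinv : T⁻¹ = T := by
    ext x
    rw [Set.mem_inv]
    constructor
    · intro hx
      have := inv_mem_pow hinv1 (show ((x⁻¹ : H) : G) ∈ (insert 1 S) ^ (2 * d - 1) from hx)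
      rw [← Subgroup.coe_inv, inv_inv] at this
      exact this
    · intro hx
      exact inv_mem_pow hinv1 (show (x : G) ∈ (insert 1 S) ^ (2 * d - 1) from hx)
  have hQ := QQ_pos hβ
  have hQ2 : 2 ≤ QQ β := by
    unfold QQ
    have : 0 ≤ 2 * Real.log 2 / β := by
      have := Real.log_pos one_lt_two
      positivity
    linarith
  have hlog2 : 0 < Real.log 2 := Real.log_pos one_lt_two
  have hfinish : Real.log 2 / (88 * QQ β) ≤ H746UG.rho T →
      Real.log 2 / (88 * QQ β * (2 * d - 1)) ≤ H746UG.rho S := by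
    intro h3
    have h4 := W963.GE.rho_TT S hfin hne H hd1
    have he : ((2 * d - 1 : ℕ) : ℝ) = 2 * d - 1 := by
      rw [Nat.cast_sub (by omega)]; push_cast; ring
    rw [he] at h4
    have hpos : (0 : ℝ) < 2 * d - 1 := by
      have : (1 : ℝ) ≤ d := by exact_mod_cast hd1
      linarith
    have h5 := h3.trans h4
    rw [← div_div, div_le_iff₀ hpos, mul_comm (H746UG.rho S)]
    exact h5
  rcases N600.G3.main T hTfin h1T hTinv hTgen with h | ⟨h1, h2⟩
  · right
    refine hfinish (le_trans ?_ (N600.G3.rho_ge_88 T h))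
    refine div_le_div_of_nonneg_left hlog2.le (by norm_num) ?_
    linarith
  -- the quotient by the third derived subgroup
  let π : H →* H ⧸ derivedSeries H 3 := QuotientGroup.mk' _
  have hπ : Function.Surjective π := QuotientGroup.mk'_surjective _
  by_cases hvn : VirtNilp (H ⧸ derivedSeries H 3)
  · left
    rcases hnil with hn | hn
    · have h3 : ∃ K : Subgroup H, K.FiniteIndex ∧ Group.IsNilpotent K := by
        refine hallV (N := derivedSeries H 2) hn ?_
        exact hvn
      obtain ⟨K, hK1, hK2⟩ := vn_up (P := H) ⟨hH⟩ h3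
      exact ⟨K, hK2, hK1⟩
    · exfalso
      obtain ⟨K, hK1, hK2⟩ := hvn
      exact hn ⟨K, hK2, hK1⟩
  right
  apply hfinish
  set P := H ⧸ derivedSeries H 3 with hP
  have hgen' : Subgroup.closure (π '' T) = ⊤ := by
    rw [← MonoidHom.map_closure, hTgen, ← MonoidHom.range_eq_map]
    exact MonoidHom.range_eq_top.2 hπ
  have hinv' : (π '' T)⁻¹ = π '' T := by
    rw [← Set.image_inv, hTinv]
  have h1' : (1 : P) ∈ π '' T := ⟨1, h1T, map_one π⟩
  have hmap : ∀ i, (derivedSeries H i).map π = derivedSeries P i := fun i =>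
    map_derivedSeries_eq hπ i
  have hbot : derivedSeries P 3 = ⊥ := by
    rw [← hmap 3, eq_bot_iff]
    rintro _ ⟨x, hx, rfl⟩
    rw [Subgroup.mem_bot]
    exact (QuotientGroup.eq_one_iff x).2 hx
  have hD2 : derivedSeries P 2 = ⁅commutator P, commutator P⁆ := derived_two
  have hab : ∀ x ∈ (⁅commutator P, commutator P⁆ : Subgroup P),
      ∀ y ∈ (⁅commutator P, commutator P⁆ : Subgroup P), x * y = y * x := by
    intro x hx y hy
    have h3 : ⁅x, y⁆ ∈ (⁅(⁅commutator P, commutator P⁆ : Subgroup P),
        (⁅commutator P, commutator P⁆ : Subgroup P)⁆ : Subgroup P) :=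
      Subgroup.commutator_mem_commutator hx hy
    have h4 : derivedSeries P 3 = (⁅(⁅commutator P, commutator P⁆ : Subgroup P),
        (⁅commutator P, commutator P⁆ : Subgroup P)⁆ : Subgroup P) := N600.G3.derived_three
    rw [← h4, hbot, Subgroup.mem_bot, commutatorElement_eq_one_iff_mul_comm] at h3
    exact h3
  have hNS : ∀ K : Subgroup P, K.FG := fun K => h1 K le_top
  have hT4 : ∀ t : H, t ∈ T ^ 4 → (t : G) ∈ (insert 1 S) ^ (4 * (2 * d - 1)) := by
    intro t ht
    have h3 : (t : G) ∈ H.subtype '' (T ^ 4) := ⟨t, ht, rfl⟩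
    rw [Set.image_pow] at h3
    have h4 : H.subtype '' T ⊆ (insert 1 S) ^ (2 * d - 1) := by
      rintro _ ⟨x, hx, rfl⟩
      exact hx
    have h5 := Set.pow_subset_pow_left (n := 4) h4 h3
    rwa [← pow_mul, mul_comm (2 * d - 1) 4] at h5
  have hkey : ∀ i : ℕ, i = 1 ∨ i = 2 → ∀ t ∈ (π '' T) ^ 4, ∀ w : ℂ, EF (derivedSeries P i) t w →
      HouseAt β w := by
    intro i hi t ht w hE
    rw [← Set.image_pow] at ht
    obtain ⟨t, ht, rfl⟩ := ht
    have hE' := EF_comap π (derivedSeries H i) (derivedSeries P i) (hmap i) t w hE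
    have hMf : Module.Finite ℤ (Additive (Abelianization (derivedSeries H i))) := by
      refine fg_ab π (derivedSeries H i) ?_ (hNS _)
      intro x _ hx
      have h3 : x ∈ derivedSeries H 3 := (QuotientGroup.eq_one_iff x).1 hx
      have h4 : derivedSeries H (i + 1) = ⁅derivedSeries H i, derivedSeries H i⁆ :=
        derivedSeries_succ H i
      rw [← h4]
      exact derivedSeries_antitone H (by omega) h3
    obtain ⟨f, hf, hne'⟩ := (EF_iff _ _ _).1 hE'
    exact hgood i hi hMf t (hT4 t ht) w (eig_of_functional _ f hf hne')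
  refine (core P (π '' T) (hTfin.image π) h1' hinv' hgen' hNS hab hβ ?_ ?_ hvn).trans
    (rho_image_le π T hTfin ⟨1, h1T⟩)
  · intro t ht w hE
    refine hkey 1 (Or.inl rfl) t ht w ?_
    have h3 := derivedSeries_one P
    convert hE using 1
  · intro t ht w hE
    refine hkey 2 (Or.inr rfl) t ht w ?_
    convert hE using 1

end Pool.Agent.K9h61.GG
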