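import Pool.Agent.K9h61.GG.Tha

/-!
# Growth from a length function which is expanded by a short element
-/

set_option autoImplicit false

namespace Pool.Agent.K9h61.GG

open Pool.Agent.N600.G3
open Filter Topology
open scoped Pointwise

/-- the products of the words `c ^ x s` -/
def VV {G : Type*} [Group G] (c s : G) : List Bool → G
  | [] => 1
  | x :: l => VV c s l * ((if x then c else 1) * s)

section
variable {G : Type*} [Group G] (D : Subgroup G) [D.Normal] (ν : D → ℝ)

theorem VV_diff (h_mul : ∀ x y, ν (x * y) ≤ ν x + ν y) (h_inv : ∀ x, ν x⁻¹ = ν x)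
    (s : G) (q : ℝ) (hq : 3 ≤ q) (hs : ∀ x, ν (MulAut.conjNormal s x) = q * ν x) (c : D)
    (hc : 0 < ν c) :
    ∀ l l' : List Bool, l.length = l'.length →
      ∃ e : D, (e : G) = (VV (c : G) s l)⁻¹ * VV (c : G) s l' ∧ ν e < ν c := by
  have h1 : ν 1 = 0 := by
    have h := hs 1
    rw [map_one] at h
    nlinarith
  have hbit : ∀ x : Bool, ν (if x then c else 1) ≤ ν c := by
    intro x
    cases x
    · simp only [Bool.false_eq_true, if_false, h1]; exact hc.le
    · simp
  intro l
  induction l with
  | nil =>
    intro l' hl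
    have : l' = [] := List.length_eq_zero_iff.1 hl.symm
    subst this
    exact ⟨1, by simp [VV], by rw [h1]; exact hc⟩
  | cons x l ih =>
    intro l' hl
    cases l' with
    | nil => simp at hl
    | cons y l' =>
      obtain ⟨e, he, hlt⟩ := ih l' (by simpa using hl)
      set z : D := (if x then c else 1)⁻¹ * e * (if y then c else 1) with hz
      refine ⟨MulAut.conjNormal s⁻¹ z, ?_, ?_⟩
      · rw [MulAut.conjNormal_apply]
        have h2 : (z : G) = (if x then (c : G) else 1)⁻¹ * e * (if y then (c : G) else 1) := by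
          rw [hz]
          cases x <;> cases y <;> simp
        rw [h2, he]
        show _ = (VV (c : G) s l * ((if x then (c : G) else 1) * s))⁻¹ *
          (VV (c : G) s l' * ((if y then (c : G) else 1) * s))
        group
      · have h3 := hs (MulAut.conjNormal s⁻¹ z)
        have h4 : MulAut.conjNormal s (MulAut.conjNormal s⁻¹ z) = z := by
          rw [← MulAut.mul_apply, ← map_mul, mul_inv_cancel, map_one, MulAut.one_apply]
        rw [h4] at h3
        have h5 : ν z ≤ ν c + ν e + ν c := by
          have h6 := h_mul ((if x then c else 1)⁻¹ * e) (if y then c else 1)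
          have h7 := h_mul ((if x then c else 1)⁻¹) e
          rw [h_inv] at h7
          have h8 := hbit x
          have h9 := hbit y
          linarith
        have h6 : q * ν (MulAut.conjNormal s⁻¹ z) < 3 * ν c := by rw [← h3]; linarith
        by_contra hcon
        push Not at hcon
        nlinarith

theorem VV_inj (h_mul : ∀ x y, ν (x * y) ≤ ν x + ν y) (h_inv : ∀ x, ν x⁻¹ = ν x)
    (s : G) (q : ℝ) (hq : 3 ≤ q) (hs : ∀ x, ν (MulAut.conjNormal s x) = q * ν x) (c : D)
    (hc : 0 < ν c) :
    ∀ l l' : List Bool, l.length = l'.length → VV (c : G) s l = VV (c : G) s l' → l = l' := by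
  have key := VV_diff D ν h_mul h_inv s q hq hs c hc
  intro l
  induction l with
  | nil => intro l' hl _; exact (List.length_eq_zero_iff.1 hl.symm).symm
  | cons x l ih =>
    intro l' hl h
    cases l' with
    | nil => simp at hl
    | cons y l' =>
      have hl' : l.length = l'.length := by simpa using hl
      have h0 : VV (c : G) s l * (if x then (c : G) else 1) =
          VV (c : G) s l' * (if y then (c : G) else 1) := by
        have h1 : VV (c : G) s l * ((if x then (c : G) else 1) * s) =
          VV (c : G) s l' * ((if y then (c : G) else 1) * s) := h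
        rw [← mul_assoc, ← mul_assoc] at h1
        exact mul_right_cancel h1
      have hxy : x = y := by
        by_contra hne
        have hcase : (x = true ∧ y = false) ∨ (x = false ∧ y = true) := by
          cases x <;> cases y <;> simp_all
        rcases hcase with ⟨rfl, rfl⟩ | ⟨rfl, rfl⟩
        · obtain ⟨e, he, hlt⟩ := key l l' hl'
          simp only [if_true, Bool.false_eq_true, if_false, mul_one] at h0
          have h2 : (e : G) = c := by rw [he, ← h0]; group
          rw [Subtype.ext h2] at hlt
          exact lt_irrefl _ hlt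
        · obtain ⟨e, he, hlt⟩ := key l' l hl'.symm
          simp only [if_true, Bool.false_eq_true, if_false, mul_one] at h0
          have h2 : (e : G) = c := by rw [he, h0]; group
          rw [Subtype.ext h2] at hlt
          exact lt_irrefl _ hlt
      subst hxy
      rw [ih l' hl' (mul_right_cancel h0)]

end

lemma VV_mem {G : Type*} [Group G] {T : Set G} (h1T : 1 ∈ T) {c s : G} {a b : ℕ}
    (hc : c ∈ T ^ a) (hs : s ∈ T ^ b) :
    ∀ l : List Bool, VV c s l ∈ T ^ ((a + b) * l.length) := by
  intro l
  induction l with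
  | nil => simp [VV]
  | cons x l ih =>
    show VV c s l * ((if x then c else 1) * s) ∈ _
    rw [List.length_cons, Nat.mul_succ, pow_add, pow_add]
    refine Set.mul_mem_mul ih (Set.mul_mem_mul ?_ hs)
    cases x
    · simp only [Bool.false_eq_true, if_false]
      simpa using Set.pow_mem_pow (n := a) h1T
    · simpa using hc

lemma conj_pow {G : Type*} [Group G] (D : Subgroup G) [D.Normal] (ν : D → ℝ) (t : G) (ρ : ℝ)
    (ht : ∀ x, ν (MulAut.conjNormal t x) = ρ * ν x) (m : ℕ) :
    ∀ x, ν (MulAut.conjNormal (t ^ m) x) = ρ ^ m * ν x := by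
  induction m with
  | zero => intro x; simp
  | succ m ih =>
    intro x
    rw [pow_succ', map_mul, MulAut.mul_apply, ht, ih, pow_succ']
    ring

/-- **Growth from a length function.** -/
theorem len_growth {G : Type*} [Group G] (T : Set G) (hfin : T.Finite) (h1T : 1 ∈ T)
    (D : Subgroup G) [D.Normal] (ν : D → ℝ) (h_mul : ∀ x y, ν (x * y) ≤ ν x + ν y)
    (h_inv : ∀ x, ν x⁻¹ = ν x) (t : G) (htT : t ∈ T) (ρ β : ℝ) (hβ : 0 < β) (hρ0 : 0 < ρ)
    (hρ : β ≤ Real.log ρ)
    (ht : ∀ x, ν (MulAut.conjNormal t x) = ρ * ν x) (c : D) (hcT : (c : G) ∈ T ^ 4)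
    (hc : 0 < ν c) : Real.log 2 / (88 * QQ β) ≤ H746UG.rho T := by
  have hlog3 : 0 < Real.log 3 := Real.log_pos (by norm_num)
  have hlog2 : 0 < Real.log 2 := Real.log_pos (by norm_num)
  set m : ℕ := ⌈Real.log 3 / β⌉₊ with hm
  have hm1 : Real.log 3 / β ≤ m := Nat.le_ceil _
  have hm2 : (m : ℝ) < Real.log 3 / β + 1 := Nat.ceil_lt_add_one (by positivity)
  have hq : 3 ≤ ρ ^ m := by
    have h1 : Real.log 3 ≤ Real.log (ρ ^ m) := by
      rw [Real.log_pow]
      rw [div_le_iff₀ hβ] at hm1
      have : (m : ℝ) * β ≤ m * Real.log ρ := mul_le_mul_of_nonneg_left hρ (Nat.cast_nonneg _)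
      linarith
    exact (Real.log_le_log_iff (by norm_num) (by positivity)).1 h1
  have hinj := VV_inj D ν h_mul h_inv (t ^ m) (ρ ^ m) hq (conj_pow D ν t ρ ht m) c hc
  have hcard : ∀ R : ℕ, 2 ^ R ≤ Nat.card ↥(T ^ ((4 + m) * R)) := by
    intro R
    have hf : Finite ↥(T ^ ((4 + m) * R)) := (finite_pow hfin _).to_subtype
    have h1 : Nat.card (List.Vector Bool R) = 2 ^ R := by
      rw [Nat.card_eq_fintype_card, card_vector, Fintype.card_bool]
    rw [← h1]
    refine Nat.card_le_card_of_injective (fun v : List.Vector Bool R =>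
      (⟨VV (c : G) (t ^ m) v.1, ?_⟩ : ↥(T ^ ((4 + m) * R)))) ?_
    · have h5 : t ^ m ∈ T ^ m := Set.pow_mem_pow htT
      have := VV_mem h1T hcT h5 v.1
      rwa [v.2] at this
    · intro v w hvw
      exact Subtype.ext (hinj v.1 w.1 (v.2.trans w.2.symm) (congrArg Subtype.val hvw))
  have h2 : Real.log 2 / (4 + m) ≤ H746UG.rho T := by
    refine rho_ge_of_subseq T (4 + m) (by omega) _ fun R => ?_
    have h3 : Real.log 2 / (4 + m) * (((4 + m) * R : ℕ) : ℝ) = Real.log (2 ^ R) := by
      rw [Real.log_pow]
      push_cast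
      field_simp
    rw [h3]
    exact Real.log_le_log (by positivity) (by exact_mod_cast hcard R)
  refine le_trans ?_ h2
  refine div_le_div_of_nonneg_left hlog2.le (by positivity) ?_
  unfold QQ
  have h4 : Real.log 3 / β ≤ 2 * Real.log 2 / β := by
    refine div_le_div_of_nonneg_right ?_ hβ.le
    have h5 : 2 * Real.log 2 = Real.log 4 := by
      rw [show (4 : ℝ) = 2 ^ 2 by norm_num, Real.log_pow]; norm_num
    rw [h5]
    exact Real.log_le_log (by norm_num) (by norm_num)
  have h6 : 0 ≤ 2 * Real.log 2 / β := by positivity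
  linarith

end Pool.Agent.K9h61.GG
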