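import Pool.Agent.TH53.UG3
import Pool.Agent.H45R3.UG.Sect

/-!
# Functionals on normal subgroups which are eigenvectors for the conjugation

`EF N t w`: the normal subgroup `N` has a nonzero homomorphism `φ` to the additive group `ℂ` with
`φ (t a t⁻¹) = w φ a`.
-/

set_option autoImplicit false

open Polynomial TensorProduct

namespace Pool.Agent.K9h61.GG

open Pool.Agent.H45R3.UG

universe u

/-- eigenfunctionals -/
def EF {G : Type u} [Group G] (N : Subgroup G) [N.Normal] (t : G) (w : ℂ) : Prop :=
  ∃ φ : N → ℂ, (∀ a b, φ (a * b) = φ a + φ b) ∧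
    (∀ a, φ (MulAut.conjNormal t a) = w * φ a) ∧ ∃ a, φ a ≠ 0

section module
variable {M : Type*} [AddCommGroup M]

/-- an eigenvalue gives an eigenfunctional -/
theorem functional_of_eig [Module.Finite ℤ M] (g : Module.End ℤ M) {z : ℂ}
    (h : Module.End.HasEigenvalue (LinearMap.baseChange ℂ g : Module.End ℂ (ℂ ⊗[ℤ] M)) z) :
    ∃ f : M →+ ℂ, (∀ a, f (g a) = z * f a) ∧ ∃ a, f a ≠ 0 := by
  set T : Module.End ℂ (ℂ ⊗[ℤ] M) := LinearMap.baseChange ℂ g with hT
  set U : Module.End ℂ (ℂ ⊗[ℤ] M) := T - algebraMap ℂ _ z with hU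
  have h1 : LinearMap.ker U ≠ ⊥ := by
    have := h
    rw [Module.End.hasEigenvalue_iff, Module.End.eigenspace_def] at this
    exact this
  have h2 : LinearMap.range U ≠ ⊤ := by
    intro h3
    exact h1 (LinearMap.ker_eq_bot.2 ((LinearMap.injective_iff_surjective).2
      (LinearMap.range_eq_top.1 h3)))
  obtain ⟨F, hF0, hF⟩ := Submodule.exists_le_ker_of_lt_top (LinearMap.range U)
    (lt_top_iff_ne_top.2 h2)
  have h4 : ∀ v, F (T v) = z * F v := by
    intro v
    have h5 : F (U v) = 0 := hF ⟨v, rfl⟩
    rw [hU, LinearMap.sub_apply, map_sub, Module.algebraMap_end_apply, map_smul, smul_eq_mul] at h5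
    exact sub_eq_zero.1 h5
  refine ⟨{ toFun := fun a => F (1 ⊗ₜ a)
            map_zero' := by simp
            map_add' := by
              intro a b
              rw [TensorProduct.tmul_add, map_add] }, fun a => ?_, ?_⟩
  · show F (1 ⊗ₜ g a) = z * F (1 ⊗ₜ a)
    rw [← h4, hT, LinearMap.baseChange_tmul]
  · by_contra hcon
    push Not at hcon
    apply hF0
    apply LinearMap.ext
    intro v
    rw [LinearMap.zero_apply]
    induction v using TensorProduct.induction_on with
    | zero => exact map_zero F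
    | tmul x a =>
      have h6 : x ⊗ₜ[ℤ] a = x • ((1 : ℂ) ⊗ₜ[ℤ] a) := by
        rw [TensorProduct.smul_tmul', smul_eq_mul, mul_one]
      rw [h6, map_smul]
      have h7 : F (1 ⊗ₜ a) = 0 := hcon a
      rw [h7, smul_zero]
    | add x y hx hy => rw [map_add, hx, hy, add_zero]

theorem root_of_functional (g : Module.End ℤ M) {z : ℂ} (f : M →+ ℂ)
    (hf : ∀ a, f (g a) = z * f a) {c : M} (hc : f c ≠ 0) (p : ℤ[X])
    (hp : (aeval g p) c = 0) : aeval z p = 0 := by
  have h1 : ∀ (p : ℤ[X]) (a : M), f ((aeval g p) a) = aeval z p * f a := by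
    intro p
    induction p using Polynomial.induction_on' with
    | add p q hp hq =>
      intro a
      rw [map_add, LinearMap.add_apply, map_add, hp, hq, map_add, add_mul]
    | monomial n k =>
      intro a
      rw [aeval_monomial, aeval_monomial]
      have h2 : ∀ a, f ((g ^ n) a) = z ^ n * f a := by
        induction n with
        | zero => intro a; simp
        | succ n ih =>
          intro a
          rw [pow_succ', Module.End.mul_apply, hf, ih, pow_succ']
          ring
      rw [Module.End.mul_apply, Module.algebraMap_end_apply, map_zsmul, h2]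
      simp [mul_assoc]
  have h2 := h1 p c
  rw [hp, map_zero] at h2
  rcases mul_eq_zero.1 h2.symm with h | h
  · exact h
  · exact absurd h hc

/-- conjugates of eigenvalues -/
theorem conj_functional [Module.Finite ℤ M] (g : Module.End ℤ M) {z z' : ℂ} (f : M →+ ℂ)
    (hf : ∀ a, f (g a) = z * f a) (hne : ∃ a, f a ≠ 0) (hz : aeval z' (minpoly ℚ z) = 0) :
    ∃ f' : M →+ ℂ, (∀ a, f' (g a) = z' * f' a) ∧ ∃ a, f' a ≠ 0 := by
  obtain ⟨c, hc⟩ := hne
  have h1 := root_of_functional g f hf hc
  have hx : IsIntegral ℤ z := TH53.UG.integral_of_root g c h1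
  refine functional_of_eig g (TH53.UG.eig_of_root g c h1 ?_)
  rw [minpoly.isIntegrallyClosed_eq_field_fractions' ℚ hx, aeval_map_algebraMap] at hz
  exact hz

theorem eig_of_functional [Module.Finite ℤ M] (g : Module.End ℤ M) {z : ℂ} (f : M →+ ℂ)
    (hf : ∀ a, f (g a) = z * f a) (hne : ∃ a, f a ≠ 0) :
    Module.End.HasEigenvalue (LinearMap.baseChange ℂ g : Module.End ℂ (ℂ ⊗[ℤ] M)) z := by
  obtain ⟨c, hc⟩ := hne
  have h1 := root_of_functional g f hf hc
  exact TH53.UG.eig_of_root g c h1 (minpoly.aeval ℤ z)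

/-- removing torsion -/
theorem torsion_kill [Module.Finite ℤ M] (g : Module.End ℤ M) (hg : Function.Injective g) (d : M)
    (h : ∃ n m e : ℕ, 0 < n ∧ 0 < e ∧ (e : ℤ) • ((g ^ n - 1) ^ m) d = 0) :
    ∃ m k : ℕ, 0 < m ∧ ((g ^ m - 1) ^ k) d = 0 := by
  obtain ⟨n, m, e, hn, he, h⟩ := h
  -- the finite group of the elements killed by `e`
  set Te : Submodule ℤ M := LinearMap.ker ((e : ℤ) • (LinearMap.id : M →ₗ[ℤ] M)) with hTe
  have hmem : ∀ x : M, x ∈ Te ↔ (e : ℤ) • x = 0 := fun x => by
    rw [hTe, LinearMap.mem_ker]; rfl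
  have hTfin : Finite Te := by
    have h1 : Module.Finite ℤ Te := inferInstance
    have h2 : AddMonoid.IsTorsion Te := by
      intro x
      rw [isOfFinAddOrder_iff_nsmul_eq_zero]
      refine ⟨e, he, ?_⟩
      have h3 := (hmem x).1 x.2
      apply Subtype.ext
      rw [← natCast_zsmul]
      exact h3
    have h4 : AddGroup.FG Te := Module.Finite.iff_addGroup_fg.1 h1
    exact AddCommGroup.finite_of_fg_torsion Te h2
  have hinv : ∀ x ∈ Te, g x ∈ Te := by
    intro x hx
    rw [hmem] at hx ⊢
    rw [← map_zsmul, hx, map_zero]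
  let σ : Te → Te := fun x => ⟨g x, hinv x x.2⟩
  have hσ : Function.Bijective σ := Finite.injective_iff_bijective.1 (by
    intro x y hxy
    have := congrArg Subtype.val hxy
    exact Subtype.ext (hg this))
  obtain ⟨r, hr, hr1⟩ : ∃ r : ℕ, 0 < r ∧ ∀ x ∈ Te, (g ^ r) x = x := by
    let π : Equiv.Perm Te := Equiv.ofBijective σ hσ
    refine ⟨orderOf π, orderOf_pos π, fun x hx => ?_⟩
    have h1 : ∀ (k : ℕ) (y : Te), (((π ^ k) y : Te) : M) = (g ^ k) y := by
      intro k
      induction k with
      | zero => intro y; rfl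
      | succ k ih =>
        intro y
        rw [pow_succ', pow_succ', Module.End.mul_apply, ← ih]
        rfl
    have h2 := h1 (orderOf π) ⟨x, hx⟩
    rw [pow_orderOf_eq_one] at h2
    exact h2.symm
  refine ⟨n * r, m + 1, Nat.mul_pos hn hr, ?_⟩
  have hd : ∃ q : Module.End ℤ M, Commute q g ∧ g ^ (n * r) - 1 = q * (g ^ n - 1) := by
    refine ⟨∑ i ∈ Finset.range r, (g ^ n) ^ i, ?_, ?_⟩
    · exact (Commute.sum_right _ _ _ fun i _ => ((Commute.refl g).pow_right n).pow_right i).symm
    · rw [pow_mul]
      exact (geom_sum_mul (g ^ n) r).symm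
  obtain ⟨q, hq, hq'⟩ := hd
  have hqc : Commute q (g ^ n - 1) := (hq.pow_right n).sub_right (Commute.one_right q)
  have h5 : ((g ^ (n * r) - 1) ^ m) d ∈ Te := by
    rw [hmem, hq', hqc.mul_pow, Module.End.mul_apply, ← map_zsmul, h, map_zero]
  have h6 : ∀ (k : ℕ), ∀ x ∈ Te, (g ^ (r * k)) x = x := by
    intro k
    induction k with
    | zero => intro x _; simp
    | succ k ih =>
      intro x hx
      rw [Nat.mul_succ, pow_add, Module.End.mul_apply, hr1 x hx, ih x hx]
  rw [pow_succ', Module.End.mul_apply, LinearMap.sub_apply, Module.End.one_apply, mul_comm n r,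
    h6 n _ (by rw [mul_comm r n]; exact h5), sub_self]

end module

section groups

/-- conjugation on the abelianization -/
noncomputable def cj {G : Type u} [Group G] (N : Subgroup G) [N.Normal] (t : G) :
    Module.End ℤ (Additive (Abelianization N)) :=
  (MonoidHom.toAdditive
    (Abelianization.map (MulAut.conjNormal t : N ≃* N).toMonoidHom)).toIntLinearMap

lemma cj_of {G : Type u} [Group G] (N : Subgroup G) [N.Normal] (t : G) (a : N) :
    cj N t (Additive.ofMul (Abelianization.of a)) =
      Additive.ofMul (Abelianization.of (MulAut.conjNormal t a)) := rfl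

lemma ab_surj {G : Type u} [Group G] (N : Subgroup G) (x : Additive (Abelianization N)) :
    ∃ a : N, Additive.ofMul (Abelianization.of a) = x := by
  obtain ⟨a, ha⟩ := QuotientGroup.mk_surjective (s := commutator N) x.toMul
  exact ⟨a, ha⟩

theorem EF_iff {G : Type u} [Group G] (N : Subgroup G) [N.Normal] (t : G) (w : ℂ) :
    EF N t w ↔ ∃ f : Additive (Abelianization N) →+ ℂ, (∀ a, f (cj N t a) = w * f a) ∧
      ∃ a, f a ≠ 0 := by
  constructor
  · rintro ⟨φ, h1, h2, a, ha⟩
    let φ' : N →* Multiplicative ℂ :=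
      { toFun := fun a => Multiplicative.ofAdd (φ a)
        map_one' := by
          have := h1 1 1
          rw [mul_one] at this
          have h3 : φ 1 = 0 := by simpa using this
          rw [h3]; rfl
        map_mul' := fun a b => by rw [h1]; rfl }
    let f : Additive (Abelianization N) →+ ℂ := (Abelianization.lift φ').toAdditiveLeft
    have hf : ∀ a : N, f (Additive.ofMul (Abelianization.of a)) = φ a := fun a => by
      show ((Abelianization.lift φ') (Abelianization.of a)).toAdd = φ a
      rw [Abelianization.lift_apply_of]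
      rfl
    refine ⟨f, fun x => ?_, Additive.ofMul (Abelianization.of a), by rw [hf]; exact ha⟩
    obtain ⟨b, rfl⟩ := ab_surj N x
    rw [cj_of, hf, hf, h2]
  · rintro ⟨f, h1, x, hx⟩
    obtain ⟨a, rfl⟩ := ab_surj N x
    refine ⟨fun a => f (Additive.ofMul (Abelianization.of a)), fun a b => ?_, fun a => ?_, a, hx⟩
    · show f (Additive.ofMul (Abelianization.of (a * b))) = _
      rw [map_mul, ofMul_mul, map_add]
    · show f (Additive.ofMul (Abelianization.of (MulAut.conjNormal t a))) = _
      rw [← cj_of, h1]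

lemma finite_ab {G : Type u} [Group G] {N : Subgroup G} (hN : N.FG) :
    Module.Finite ℤ (Additive (Abelianization N)) := by
  have h1 : Group.FG N := (Group.fg_iff_subgroup_fg N).2 hN
  have h2 : Group.FG (Abelianization N) := Group.fg_of_surjective (f := Abelianization.of)
    (QuotientGroup.mk_surjective (s := commutator N))
  rw [Module.Finite.iff_addGroup_fg]
  infer_instance

theorem EF_conj {G : Type u} [Group G] {N : Subgroup G} [N.Normal] (hN : N.FG) {t : G} {w w' : ℂ}
    (h : EF N t w) (hw : aeval w' (minpoly ℚ w) = 0) : EF N t w' := by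
  have := finite_ab hN
  rw [EF_iff] at h ⊢
  obtain ⟨f, h1, h2⟩ := h
  exact conj_functional (cj N t) f h1 h2 hw

end groups

end Pool.Agent.K9h61.GG
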