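import Pool.Agent.K9h61.GG.Rp
import Pool.Agent.K9h61.GG.Alg

/-!
# Small lemmas
-/

set_option autoImplicit false
set_option linter.unusedSectionVars false

namespace Pool.Agent.K9h61.GG

open Pool.Agent.H45R3.UG
open Pool.Agent.N600.G3 (CT)
open Filter Topology
open scoped Pointwise commutatorElement IsMulCommutative

lemma mem_closure_finset {G : Type*} [Group G] {s : Set G} {x : G}
    (hx : x ∈ Subgroup.closure s) :
    ∃ t : Finset G, (t : Set G) ⊆ s ∧ x ∈ Subgroup.closure (t : Set G) := by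
  classical
  induction hx using Subgroup.closure_induction with
  | mem x hx =>
    exact ⟨{x}, by simpa using hx, Subgroup.subset_closure (by simp)⟩
  | one => exact ⟨∅, by simp, Subgroup.one_mem _⟩
  | mul x y _ _ hx hy =>
    obtain ⟨t, ht, hxt⟩ := hx
    obtain ⟨t', ht', hyt⟩ := hy
    refine ⟨t ∪ t', by rw [Finset.coe_union]; exact Set.union_subset ht ht', ?_⟩
    refine Subgroup.mul_mem _ (Subgroup.closure_mono ?_ hxt) (Subgroup.closure_mono ?_ hyt)
    · rw [Finset.coe_union]; exact Set.subset_union_left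
    · rw [Finset.coe_union]; exact Set.subset_union_right
  | inv x _ hx =>
    obtain ⟨t, ht, hxt⟩ := hx
    exact ⟨t, ht, Subgroup.inv_mem _ hxt⟩

lemma fg_subset {G : Type*} [Group G] {s : Set G} (h : (Subgroup.closure s).FG) :
    ∃ t : Finset G, (t : Set G) ⊆ s ∧ Subgroup.closure (t : Set G) = Subgroup.closure s := by
  classical
  obtain ⟨F, hF⟩ := h
  have h1 : ∀ x : G, ∃ t : Finset G, x ∈ F → (t : Set G) ⊆ s ∧ x ∈ Subgroup.closure (t : Set G) := by
    intro x
    by_cases hx : x ∈ F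
    · obtain ⟨t, ht⟩ := mem_closure_finset (s := s) (x := x) (by
        rw [← hF]; exact Subgroup.subset_closure hx)
      exact ⟨t, fun _ => ht⟩
    · exact ⟨∅, fun h => absurd h hx⟩
  choose t ht using h1
  refine ⟨F.biUnion t, ?_, ?_⟩
  · intro x hx
    rw [Finset.mem_coe, Finset.mem_biUnion] at hx
    obtain ⟨y, hy, hxy⟩ := hx
    exact (ht y hy).1 hxy
  · apply le_antisymm
    · apply Subgroup.closure_mono
      intro x hx
      rw [Finset.mem_coe, Finset.mem_biUnion] at hx
      obtain ⟨y, hy, hxy⟩ := hx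
      exact (ht y hy).1 hxy
    · rw [← hF, Subgroup.closure_le]
      intro x hx
      refine Subgroup.closure_mono ?_ (ht x hx).2
      intro y hy
      rw [Finset.mem_coe, Finset.mem_biUnion]
      exact ⟨x, hx, hy⟩

lemma E_conj {G : Type} [Group G] (x g a : G) (k : ℕ) :
    (E (x * g * x⁻¹))^[k] (x * a * x⁻¹) = x * (E g)^[k] a * x⁻¹ := by
  have := E_map (MulAut.conj x).toMonoidHom g a k
  exact this.symm

lemma QN_conj {G : Type} [Group G] {A : Subgroup G} [A.Normal] {s : G} (h : QN A s) (x : G) :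
    QN A (x * s * x⁻¹) := by
  obtain ⟨m, k, hm, h⟩ := h
  refine ⟨m, k, hm, fun M a ha => ?_⟩
  have h1 := h M (x⁻¹ * a * x) (by
    have := Subgroup.Normal.conj_mem (inferInstance : A.Normal) a ha x⁻¹
    rwa [inv_inv] at this)
  have h2 := E_conj x (s ^ (M * m)) (x⁻¹ * a * x) k
  rw [h1] at h2
  have h3 : x * (x⁻¹ * a * x) * x⁻¹ = a := by group
  rw [h3, ← _root_.conj_pow] at h2
  rw [h2]
  group

theorem rho_image_le {G G' : Type*} [Group G] [Group G'] (φ : G →* G') (T : Set G)
    (hfin : T.Finite) (hne : T.Nonempty) : H746UG.rho (φ '' T) ≤ H746UG.rho T := by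
  refine le_of_tendsto_of_tendsto' (H746UG.tendsto_rho (φ '' T)) (H746UG.tendsto_rho T) fun n => ?_
  refine div_le_div_of_nonneg_right ?_ (Nat.cast_nonneg _)
  have h1 := N600.G3.card_map_pow φ T hfin n
  have hfin' : Finite ↥((φ '' T) ^ n) := (N600.G3.finite_pow (hfin.image φ) n).to_subtype
  have h2 : 0 < Nat.card ↥((φ '' T) ^ n) := by
    have h3 : ((φ '' T) ^ n).Nonempty := (hne.image φ).pow
    have h4 : Nonempty ↥((φ '' T) ^ n) := h3.to_subtype
    exact Nat.card_pos
  exact Real.log_le_log (by exact_mod_cast h2) (by exact_mod_cast h1)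

lemma card_map_mk {G : Type*} [Group G] (N D : Subgroup G) [N.Normal] (h : N.relIndex D ≠ 0) :
    Finite (D.map (QuotientGroup.mk' N)) := by
  have h3 : Nat.card (D.map (QuotientGroup.mk' N)) ≠ 0 := by
    rw [← Subgroup.relIndex_bot_left, ← Subgroup.relIndex_comap, MonoidHom.comap_bot,
      QuotientGroup.ker_mk']
    exact h
  exact Nat.finite_of_card_ne_zero h3

lemma comm_map {G G' : Type*} [Group G] [Group G'] (φ : G →* G') (hφ : Function.Surjective φ) :
    (commutator G).map φ = commutator G' := by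
  rw [_root_.commutator_def, _root_.commutator_def, Subgroup.map_commutator,
    Subgroup.map_top_of_surjective φ hφ]

lemma finite_comm_quot {G : Type*} [Group G] (N : Subgroup G) [N.Normal]
    (h : N.relIndex (commutator G) ≠ 0) : Finite (commutator (G ⧸ N)) := by
  rw [← comm_map (QuotientGroup.mk' N) (QuotientGroup.mk'_surjective N)]
  exact card_map_mk N _ h

lemma CT_pow {G : Type*} [Group G] {T : Set G} (hinv : T⁻¹ = T) {c : G} (hc : c ∈ CT T) :
    c ∈ T ^ 4 := by
  obtain ⟨s, hs, t, ht, rfl⟩ := hc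
  have hs' : s⁻¹ ∈ T := by rw [← hinv]; exact Set.inv_mem_inv.2 hs
  have ht' : t⁻¹ ∈ T := by rw [← hinv]; exact Set.inv_mem_inv.2 ht
  have h4 : T ^ 4 = T * T * T * T := by
    rw [show (4 : ℕ) = 1 + 1 + 1 + 1 by norm_num, pow_add, pow_add, pow_add, pow_one]
  rw [h4]
  exact Set.mul_mem_mul (Set.mul_mem_mul (Set.mul_mem_mul hs ht) hs') ht'

end Pool.Agent.K9h61.GG
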