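import Pool.Agent.K9h61.GG.Len

/-!
# A length function from an eigenfunctional on a subgroup of finite index
-/

set_option autoImplicit false
set_option linter.unusedSectionVars false

namespace Pool.Agent.K9h61.GG

open Pool.Agent.N600.G3 (CT)
open scoped Pointwise

section
variable {P : Type*} [Group P] {K : Subgroup P} [K.Normal] (D : Subgroup P) [D.Normal]
  (φ : K → ℂ)

/-- the size of `a ∈ K` -/
noncomputable def NN (a : K) : ℝ := ⨆ m : D, ‖φ (MulAut.conjNormal (m : P) a)‖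

lemma cn_mul (g h : P) (a : K) :
    MulAut.conjNormal (g * h) a = MulAut.conjNormal g (MulAut.conjNormal h a) := by
  rw [map_mul, MulAut.mul_apply]

lemma cn_one (a : K) : MulAut.conjNormal (1 : P) a = a := by
  rw [map_one, MulAut.one_apply]

lemma cn_coe (g : P) (a : K) : ((MulAut.conjNormal g a : K) : P) = g * a * g⁻¹ :=
  MulAut.conjNormal_apply g a

/-- conjugation by elements of `K` is trivial -/
lemma cn_K (hab : ∀ x ∈ K, ∀ y ∈ K, x * y = y * x) (g : P) (hg : g ∈ K) (a : K) :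
    MulAut.conjNormal g a = a := by
  apply Subtype.ext
  rw [cn_coe, hab g hg a a.2]
  group

variable (hab : ∀ x ∈ K, ∀ y ∈ K, x * y = y * x)
  (hfin : Finite (D.map (QuotientGroup.mk' K)))
  (hφ : ∀ a b, φ (a * b) = φ a + φ b)

include hab hfin in
lemma NN_bdd (a : K) :
    BddAbove (Set.range fun m : D => ‖φ (MulAut.conjNormal (m : P) a)‖) := by
  have h1 : ∀ m : D, ((QuotientGroup.mk' K) (m : P)) ∈ D.map (QuotientGroup.mk' K) :=
    fun m => ⟨m, m.2, rfl⟩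
  let F : D.map (QuotientGroup.mk' K) → ℝ := fun q => ‖φ (MulAut.conjNormal (q.1.out) a)‖
  have h2 : (Set.range fun m : D => ‖φ (MulAut.conjNormal (m : P) a)‖) ⊆ Set.range F := by
    rintro _ ⟨m, rfl⟩
    refine ⟨⟨_, h1 m⟩, ?_⟩
    show ‖φ (MulAut.conjNormal ((QuotientGroup.mk' K (m : P)).out) a)‖ = _
    obtain ⟨k, hk⟩ := QuotientGroup.mk_out_eq_mul K (m : P)
    have h3 : (QuotientGroup.mk' K (m : P)).out = (m : P) * k := hk
    rw [h3, cn_mul, cn_K hab k k.2]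
  exact ((Set.finite_range F).subset h2).bddAbove

include hφ in
lemma phi_one : φ 1 = 0 := by
  have := hφ 1 1
  rw [mul_one] at this
  simpa using this

include hφ in
lemma phi_inv (a : K) : φ a⁻¹ = - φ a := by
  have := hφ a a⁻¹
  rw [mul_inv_cancel, phi_one φ hφ] at this
  exact (neg_eq_of_add_eq_zero_right this.symm).symm

include hab hfin in
lemma NN_ge (a : K) (m : D) : ‖φ (MulAut.conjNormal (m : P) a)‖ ≤ NN D φ a :=
  le_ciSup (NN_bdd D φ hab hfin a) m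

include hab hfin in
lemma NN_ge' (a : K) : ‖φ a‖ ≤ NN D φ a := by
  have := NN_ge D φ hab hfin a 1
  rwa [OneMemClass.coe_one, cn_one] at this

lemma NN_nonneg (a : K) : 0 ≤ NN D φ a := Real.iSup_nonneg fun _ => norm_nonneg _

include hab hfin hφ in
lemma NN_mul (a b : K) : NN D φ (a * b) ≤ NN D φ a + NN D φ b := by
  refine ciSup_le fun m => ?_
  rw [map_mul, hφ]
  exact (norm_add_le _ _).trans (add_le_add (NN_ge D φ hab hfin a m) (NN_ge D φ hab hfin b m))

include hφ in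
lemma NN_inv (a : K) : NN D φ a⁻¹ = NN D φ a := by
  unfold NN
  congr 1
  funext m
  rw [map_inv, phi_inv φ hφ, norm_neg]

lemma NN_conj (a : K) (m : P) (hm : m ∈ D) : NN D φ (MulAut.conjNormal m a) = NN D φ a := by
  unfold NN
  refine Equiv.iSup_congr (Equiv.mulRight (⟨m, hm⟩ : D)) fun x => ?_
  show ‖φ (MulAut.conjNormal (((x * ⟨m, hm⟩ : D)) : P) a)‖ = _
  rw [← cn_mul]
  rfl

lemma NN_t (a : K) (t : P) (w : ℂ) (ht : ∀ a, φ (MulAut.conjNormal t a) = w * φ a) :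
    NN D φ (MulAut.conjNormal t a) = ‖w‖ * NN D φ a := by
  unfold NN
  rw [Real.mul_iSup_of_nonneg (norm_nonneg _)]
  refine Equiv.iSup_congr (MulAut.conjNormal t⁻¹ : D ≃* D).toEquiv fun x => ?_
  show ‖w‖ * ‖φ (MulAut.conjNormal (((MulAut.conjNormal t⁻¹ x : D)) : P) a)‖ = _
  rw [← norm_mul, ← ht, ← cn_mul, ← cn_mul]
  congr 3
  rw [MulAut.conjNormal_apply]
  group

end

lemma pow_conj {P : Type*} [Group P] {s t c : P} (h : s * t * s⁻¹ = c * t) (Z : Subgroup P)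
    (hc : c ∈ Z) (hZ : ∀ x ∈ Z, t * x * t⁻¹ ∈ Z) (n : ℕ) :
    s * t ^ n * s⁻¹ * (t ^ n)⁻¹ ∈ Z := by
  induction n with
  | zero => simp [Z.one_mem]
  | succ n ih =>
    have h1 : s * t ^ (n + 1) * s⁻¹ * (t ^ (n + 1))⁻¹ =
        (s * t * s⁻¹ * t⁻¹) * (t * (s * t ^ n * s⁻¹ * (t ^ n)⁻¹) * t⁻¹) := by
      rw [pow_succ']
      group
    have h2 : s * t * s⁻¹ * t⁻¹ = c := by rw [h]; group
    rw [h1, h2]
    exact Z.mul_mem hc (hZ _ ih)

/-- a power of `t` acts trivially on a finite section -/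
lemma exists_pow {P : Type*} [Group P] (K D : Subgroup P) [K.Normal] [D.Normal]
    (hfin : Finite (D.map (QuotientGroup.mk' K))) (t : P) :
    ∃ p : ℕ, 0 < p ∧ ∀ x ∈ D, t ^ p * x * (t ^ p)⁻¹ * x⁻¹ ∈ K := by
  have hn : (D.map (QuotientGroup.mk' K)).Normal :=
    Subgroup.Normal.map inferInstance _ (QuotientGroup.mk'_surjective K)
  set τ : MulAut (D.map (QuotientGroup.mk' K)) := MulAut.conjNormal (QuotientGroup.mk' K t) with hτ
  have h1 : Finite (MulAut (D.map (QuotientGroup.mk' K))) := inferInstance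
  refine ⟨orderOf τ, orderOf_pos τ, fun x hx => ?_⟩
  have h2 : τ ^ orderOf τ = 1 := pow_orderOf_eq_one τ
  rw [hτ, ← map_pow, ← hτ] at h2
  have h3 := congrArg Subtype.val (DFunLike.congr_fun h2 ⟨QuotientGroup.mk' K x, ⟨x, hx, rfl⟩⟩)
  rw [MulAut.conjNormal_apply, MulAut.one_apply, ← map_pow, ← map_inv, ← map_mul, ← map_mul] at h3
  have h4 : QuotientGroup.mk' K (t ^ orderOf τ * x * (t ^ orderOf τ)⁻¹ * x⁻¹) = 1 := by
    rw [map_mul _ _ x⁻¹, h3, map_inv, mul_inv_cancel]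
  exact (QuotientGroup.eq_one_iff _).1 h4

theorem exists_len {P : Type*} [Group P] (T : Set P)
    (hinv : T⁻¹ = T) (hgen : Subgroup.closure T = ⊤) (K : Subgroup P) [K.Normal]
    (hKD : K ≤ commutator P) (hab : ∀ x ∈ K, ∀ y ∈ K, x * y = y * x)
    (hfin : Finite ((commutator P).map (QuotientGroup.mk' K))) (φ : K → ℂ)
    (hφ : ∀ a b, φ (a * b) = φ a + φ b) (t : P) (htT : t ∈ T) (w : ℂ) (hw : 1 < ‖w‖)
    (ht : ∀ a, φ (MulAut.conjNormal t a) = w * φ a) (hne : ∃ a, φ a ≠ 0) :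
    ∃ ν : commutator P → ℝ, (∀ x y, ν (x * y) ≤ ν x + ν y) ∧ (∀ x, ν x⁻¹ = ν x) ∧
      (∀ x, ν (MulAut.conjNormal t x) = ‖w‖ * ν x) ∧
      ∃ c : commutator P, (c : P) ∈ CT T ∧ 0 < ν c := by
  set D := commutator P with hD
  let N : P → K → ℝ := fun g a => NN D φ (MulAut.conjNormal g a)
  have F0 : ∀ g a, 0 ≤ N g a := fun g a => NN_nonneg D φ _
  have F1 : ∀ g a b, N g (a * b) ≤ N g a + N g b := by
    intro g a b
    show NN D φ (MulAut.conjNormal g (a * b)) ≤ _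
    rw [map_mul]
    exact NN_mul D φ hab hfin hφ _ _
  have F2 : ∀ g a, N g a⁻¹ = N g a := by
    intro g a
    show NN D φ (MulAut.conjNormal g a⁻¹) = _
    rw [map_inv, NN_inv D φ hφ]
  have F3 : ∀ g a, ∀ m ∈ D, N g (MulAut.conjNormal m a) = N g a := by
    intro g a m hm
    show NN D φ (MulAut.conjNormal g (MulAut.conjNormal m a)) = NN D φ (MulAut.conjNormal g a)
    rw [← NN_conj D φ (MulAut.conjNormal g a) (g * m * g⁻¹)
      (Subgroup.Normal.conj_mem inferInstance m hm g), ← cn_mul, ← cn_mul]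
    congr 2
    group
  have F4 : ∀ g a, N g (MulAut.conjNormal t a) = ‖w‖ * N g a := by
    intro g a
    show NN D φ (MulAut.conjNormal g (MulAut.conjNormal t a)) =
      ‖w‖ * NN D φ (MulAut.conjNormal g a)
    rw [← NN_t D φ _ t w ht, ← NN_conj D φ (MulAut.conjNormal t (MulAut.conjNormal g a))
      (g * t * g⁻¹ * t⁻¹) ?_, ← cn_mul, ← cn_mul, ← cn_mul]
    · congr 2
      group
    · exact Subgroup.commutator_mem_commutator (Subgroup.mem_top g) (Subgroup.mem_top t)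
  obtain ⟨p, hp, hpK⟩ := exists_pow K D hfin t
  set τ := t ^ p with hτ
  have F5 : ∀ g a, N g (MulAut.conjNormal τ a) = ‖w‖ ^ p * N g a := fun g a =>
    conj_pow K (fun a => N g a) t ‖w‖ (F4 g) p a
  have hwp : 1 < ‖w‖ ^ p := one_lt_pow₀ hw hp.ne'
  -- the functions
  let κ : D → K := fun x => ⟨τ * x * τ⁻¹ * (x : P)⁻¹, hpK x x.2⟩
  have κ_mul : ∀ x y, κ (x * y) = κ x * MulAut.conjNormal (x : P) (κ y) := by
    intro x y
    apply Subtype.ext
    rw [Subgroup.coe_mul, cn_coe]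
    show τ * ((x : P) * y) * τ⁻¹ * ((x : P) * y)⁻¹ = τ * x * τ⁻¹ * (x : P)⁻¹ *
      (x * (τ * y * τ⁻¹ * (y : P)⁻¹) * (x : P)⁻¹)
    group
  have κ_inv : ∀ x, κ x⁻¹ = MulAut.conjNormal ((x⁻¹ : D) : P) (κ x)⁻¹ := by
    intro x
    apply Subtype.ext
    rw [cn_coe]
    show τ * (x : P)⁻¹ * τ⁻¹ * ((x : P)⁻¹)⁻¹ = (x : P)⁻¹ * (τ * x * τ⁻¹ * (x : P)⁻¹)⁻¹ *
      ((x : P)⁻¹)⁻¹
    group
  have κ_t : ∀ x, κ (MulAut.conjNormal t x) = MulAut.conjNormal t (κ x) := by
    intro x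
    apply Subtype.ext
    rw [cn_coe]
    show τ * (MulAut.conjNormal t x : D) * τ⁻¹ * ((MulAut.conjNormal t x : D) : P)⁻¹ =
      t * (τ * x * τ⁻¹ * (x : P)⁻¹) * t⁻¹
    rw [cn_coe, hτ]
    have h1 : t ^ p * t = t * t ^ p := by rw [← pow_succ, ← pow_succ']
    calc t ^ p * (t * x * t⁻¹) * (t ^ p)⁻¹ * (t * x * t⁻¹)⁻¹
        = (t ^ p * t) * x * (t ^ p * t)⁻¹ * t * (x : P)⁻¹ * t⁻¹ := by group
      _ = (t * t ^ p) * x * (t * t ^ p)⁻¹ * t * (x : P)⁻¹ * t⁻¹ := by rw [h1]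
      _ = _ := by group
  by_contra hcon
  have hcon' : ∀ g, ∀ c : D, (c : P) ∈ CT T → N g (κ c) = 0 := by
    intro g c hc
    by_contra h
    apply hcon
    refine ⟨fun x => N g (κ x), fun x y => ?_, fun x => ?_, fun x => ?_, c, hc,
      lt_of_le_of_ne (F0 _ _) (Ne.symm h)⟩
    · show N g (κ (x * y)) ≤ N g (κ x) + N g (κ y)
      rw [κ_mul]
      refine (F1 _ _ _).trans ?_
      rw [F3 g _ _ x.2]
    · show N g (κ x⁻¹) = N g (κ x)
      rw [κ_inv, F3 g _ _ (x⁻¹).2, F2]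
    · show N g (κ (MulAut.conjNormal t x)) = ‖w‖ * N g (κ x)
      rw [κ_t, F4]
  -- the kernel
  have F6 : ∀ g, N g 1 = 0 := by
    intro g
    have h := F5 g 1
    rw [map_one] at h
    nlinarith [F0 g 1]
  let K0 : Subgroup P :=
    { carrier := {x | ∃ h : x ∈ K, ∀ g, N g ⟨x, h⟩ = 0}
      one_mem' := ⟨K.one_mem, F6⟩
      mul_mem' := by
        rintro a b ⟨ha, ha'⟩ ⟨hb, hb'⟩
        refine ⟨K.mul_mem ha hb, fun g => le_antisymm ?_ (F0 _ _)⟩
        have := F1 g ⟨a, ha⟩ ⟨b, hb⟩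
        rw [ha', hb', add_zero] at this
        exact this
      inv_mem' := by
        rintro a ⟨ha, ha'⟩
        refine ⟨K.inv_mem ha, fun g => ?_⟩
        have := F2 g ⟨a, ha⟩
        rw [ha'] at this
        exact this }
  have hK0 : K0.Normal := by
    refine ⟨?_⟩
    rintro a ⟨ha, ha'⟩ h
    refine ⟨Subgroup.Normal.conj_mem inferInstance a ha h, fun g => ?_⟩
    have h1 := ha' (g * h)
    have h2 : (⟨h * a * h⁻¹, Subgroup.Normal.conj_mem inferInstance a ha h⟩ : K) =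
        MulAut.conjNormal h ⟨a, ha⟩ := by
      apply Subtype.ext
      rw [cn_coe]
    rw [h2]
    show NN D φ (MulAut.conjNormal g (MulAut.conjNormal h _)) = 0
    rw [← cn_mul]
    exact h1
  let π : P →* P ⧸ K0 := QuotientGroup.mk' K0
  have hπ : ∀ x, π x = 1 ↔ x ∈ K0 := fun x => QuotientGroup.eq_one_iff x
  -- elements of `K` which commute with an expanding element lie in `K0`
  have hexp : ∀ k ∈ D, ∀ a : K, Commute (π (k * τ)) (π a) → (a : P) ∈ K0 := by
    intro k hk a hcomm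
    have h1 : (k * τ) * a * (k * τ)⁻¹ * (a : P)⁻¹ ∈ K0 := by
      rw [← hπ, map_mul, map_mul, map_mul, map_inv, map_inv, hcomm.eq]
      group
    obtain ⟨h2, h3⟩ := h1
    refine ⟨a.2, fun g => ?_⟩
    have h4 : MulAut.conjNormal (k * τ) a = ⟨_, h2⟩ * a := by
      apply Subtype.ext
      rw [cn_coe, Subgroup.coe_mul]
      group
    have h5 := F1 g ⟨_, h2⟩ a
    rw [← h4, h3, zero_add, cn_mul, F3 g _ k hk, F5] at h5
    have h6 := F0 g a
    have h7 : N g a ≤ 0 := by nlinarith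
    exact le_antisymm h7 h6
  let Z : Subgroup P := D ⊓ (Subgroup.centralizer {π τ}).comap π
  have hZ : ∀ x, x ∈ Z ↔ x ∈ D ∧ Commute (π τ) (π x) := by
    intro x
    rw [Subgroup.mem_inf, Subgroup.mem_comap, Subgroup.mem_centralizer_singleton_iff]
    exact and_congr_right fun _ => eq_comm
  have hcomm_iff : ∀ x : D, Commute (π τ) (π x) ↔ (κ x : P) ∈ K0 := by
    intro x
    rw [← hπ]
    show _ ↔ π (τ * x * τ⁻¹ * (x : P)⁻¹) = 1
    rw [map_mul, map_mul, map_mul, map_inv, map_inv, mul_inv_eq_one, mul_inv_eq_iff_eq_mul]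
    exact Iff.rfl
  have hCT : ∀ c ∈ CT T, c ∈ Z := by
    intro c hc
    have hcD : c ∈ D := Pool.Agent.N600.G3.CT_sub T hc
    rw [hZ]
    refine ⟨hcD, (hcomm_iff ⟨c, hcD⟩).2 ⟨(κ ⟨c, hcD⟩).2, fun g => hcon' g ⟨c, hcD⟩ hc⟩⟩
  have hZt : ∀ x ∈ Z, t * x * t⁻¹ ∈ Z := by
    intro x hx
    rw [hZ] at hx ⊢
    refine ⟨Subgroup.Normal.conj_mem inferInstance x hx.1 t, ?_⟩
    rw [map_mul, map_mul, map_inv]
    have h1 : Commute (π τ) (π t) := by
      rw [hτ, map_pow]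
      exact (Commute.refl _).pow_left p
    exact (h1.mul_right hx.2).mul_right h1.inv_right
  have hZs : ∀ s ∈ T, ∀ y ∈ Z, s * y * s⁻¹ ∈ Z := by
    intro s hs y hy
    have hk : s * τ * s⁻¹ * τ⁻¹ ∈ Z :=
      pow_conj (c := s * t * s⁻¹ * t⁻¹) (by group) Z (hCT _ ⟨s, hs, t, htT, rfl⟩) hZt p
    set k := s * τ * s⁻¹ * τ⁻¹ with hkdef
    rw [hZ] at hk hy ⊢
    have hy'D : s * y * s⁻¹ ∈ D := Subgroup.Normal.conj_mem inferInstance y hy.1 s
    refine ⟨hy'D, (hcomm_iff ⟨_, hy'D⟩).2 (hexp k hk.1 _ ?_)⟩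
    have h1 : π (k * τ) = π s * π τ * (π s)⁻¹ := by
      rw [hkdef, ← map_mul, ← map_inv, ← map_mul]
      congr 1
      group
    have h2 : Commute (π (k * τ)) (π (s * y * s⁻¹)) := by
      rw [h1, map_mul, map_mul, map_inv]
      have h3 := hy.2
      show _ * _ = _ * _
      calc π s * π τ * (π s)⁻¹ * (π s * π y * (π s)⁻¹) = π s * (π τ * π y) * (π s)⁻¹ := by group
        _ = π s * (π y * π τ) * (π s)⁻¹ := by rw [h3.eq]
        _ = _ := by group
    have h3 : Commute (π (k * τ)) (π τ) := by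
      rw [map_mul]
      exact (hk.2.symm).mul_left (Commute.refl _)
    show Commute (π (k * τ)) (π (τ * (s * y * s⁻¹) * τ⁻¹ * (s * y * s⁻¹)⁻¹))
    rw [map_mul _ _ (s * y * s⁻¹)⁻¹, map_mul _ _ τ⁻¹, map_mul π τ, map_inv, map_inv π (s * y * s⁻¹)]
    exact ((h3.mul_right h2).mul_right h3.inv_right).mul_right h2.inv_right
  have hZn : Z.Normal := by
    refine ⟨fun y hy g => ?_⟩
    have hg : g ∈ Subgroup.closure T := by rw [hgen]; exact Subgroup.mem_top g
    have hclo : ∀ g ∈ Subgroup.closure T, (∀ y ∈ Z, g * y * g⁻¹ ∈ Z) ∧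
        (∀ y ∈ Z, g⁻¹ * y * g ∈ Z) := by
      intro g hg
      induction hg using Subgroup.closure_induction with
      | mem s hs =>
        refine ⟨hZs s hs, fun y hy => ?_⟩
        have hs' : s⁻¹ ∈ T := by rw [← hinv]; exact Set.inv_mem_inv.2 hs
        have := hZs _ hs' y hy
        rwa [inv_inv] at this
      | one => exact ⟨fun y hy => by simpa using hy, fun y hy => by simpa using hy⟩
      | mul a b _ _ ha hb =>
        refine ⟨fun y hy => ?_, fun y hy => ?_⟩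
        · have := ha.1 _ (hb.1 y hy)
          convert this using 1
          group
        · have := hb.2 _ (ha.2 y hy)
          convert this using 1
          group
      | inv a hamem ha =>
        refine ⟨fun y hy => ?_, fun y hy => ?_⟩
        · have := ha.2 y hy
          rwa [inv_inv]
        · have := ha.1 y hy
          rwa [inv_inv]
    exact (hclo g hg).1 y hy
  have hDZ : D ≤ Z := (Pool.Agent.N600.G3.comm_le hgen).trans (Subgroup.normalClosure_le_normal hCT)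
  obtain ⟨a, ha⟩ := hne
  have h1 : (a : P) ∈ K0 := by
    have h2 := ((hZ a).1 (hDZ (hKD a.2))).2
    have h3 := hexp 1 D.one_mem a (by rw [one_mul]; exact h2)
    exact h3
  obtain ⟨h2, h3⟩ := h1
  have h4 := h3 1
  have h5 := NN_ge' D φ hab hfin (MulAut.conjNormal 1 a)
  rw [cn_one] at h5
  have h6 : N 1 a = NN D φ a := by
    show NN D φ (MulAut.conjNormal 1 a) = _
    rw [cn_one]
  have h7 : N 1 a = 0 := h4
  rw [← h6, h7] at h5
  exact ha (norm_le_zero_iff.1 h5)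

end Pool.Agent.K9h61.GG
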