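import Pool.Agent.N713.G3.Sec

/-!
# Archimedean second moment lemma

A random walk `r λ + s_r` on the line, with a drift `λ` and independent perturbations `s_r`, visits
many unit intervals.
-/

set_option autoImplicit false

namespace Pool.Agent.K9h61.GG

open Finset
open Pool.Agent.N713.G3 (count2)

/-- few integers `r` with `r λ + s` in a given unit interval -/
theorem card_floor (R : ℕ) (lam s : ℝ) (hlam : lam ≠ 0) (y : ℤ) :
    ((univ.filter fun r : Fin R => ⌊(r : ℝ) * lam + s⌋ = y).card : ℝ) ≤ 1 / |lam| + 1 := by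
  classical
  set P := univ.filter fun r : Fin R => ⌊(r : ℝ) * lam + s⌋ = y with hP
  have hpos : 0 < |lam| := abs_pos.2 hlam
  rcases P.eq_empty_or_nonempty with h | h
  · rw [h, card_empty, Nat.cast_zero]; positivity
  obtain ⟨a, ha, hmin⟩ := P.exists_min_image (fun r => r) h
  obtain ⟨b, hb, hmax⟩ := P.exists_max_image (fun r => r) h
  have hab : a ≤ b := hmin b hb
  have h1 : P ⊆ Finset.Icc a b := fun r hr => mem_Icc.2 ⟨hmin r hr, hmax r hr⟩
  have h2 : (P.card : ℝ) ≤ (b : ℕ) - (a : ℕ) + 1 := by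
    have h3 := card_le_card h1
    rw [Fin.card_Icc] at h3
    have h4 : (a : ℕ) ≤ b := hab
    have h5 : (P.card : ℝ) ≤ ((b + 1 - a : ℕ) : ℝ) := by exact_mod_cast h3
    rw [Nat.cast_sub (by omega)] at h5
    push_cast at h5
    linarith
  have ha' : ⌊(a : ℝ) * lam + s⌋ = y := (mem_filter.1 ha).2
  have hb' : ⌊(b : ℝ) * lam + s⌋ = y := (mem_filter.1 hb).2
  rw [Int.floor_eq_iff] at ha' hb'
  have h6 : |((b : ℕ) - (a : ℕ) : ℝ) * lam| ≤ 1 := by
    rw [abs_le]
    constructor <;> nlinarith [ha'.1, ha'.2, hb'.1, hb'.2]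
  have h7 : (0 : ℝ) ≤ (b : ℕ) - (a : ℕ) := by
    have h4 : (a : ℕ) ≤ b := hab
    have : ((a : ℕ) : ℝ) ≤ (b : ℕ) := by exact_mod_cast h4
    linarith
  rw [abs_mul, abs_of_nonneg h7] at h6
  have h8 : ((b : ℕ) - (a : ℕ) : ℝ) ≤ 1 / |lam| := by
    rw [le_div_iff₀ hpos]; exact h6
  linarith

/-- the number of values and the number of coincidences -/
theorem ncard_ge {Γ : Type} {R : ℕ} (f : Fin R → Γ) [DecidableEq Γ] (a : ℝ) :
    2 * a * (R : ℝ) - a ^ 2 * (∑ r, ∑ r', if f r = f r' then (1 : ℝ) else 0) ≤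
      ((Set.range f).ncard : ℝ) := by
  have e0 : (Set.range f).ncard = (univ.image f).card := by
    rw [← Set.ncard_coe_finset]
    simp
  rw [e0]
  have e1 : ∀ r, ∑ r', (if f r = f r' then (1 : ℝ) else 0) =
      ((univ.filter fun a => f a = f r).card : ℝ) := by
    intro r
    rw [card_filter]
    push_cast
    refine sum_congr rfl fun r' _ => ?_
    simp only [eq_comm]
  simp only [e1]
  have e2 : ∑ r, ((univ.filter fun a => f a = f r).card : ℝ) =
      ∑ y ∈ univ.image f, ((univ.filter fun a => f a = y).card : ℝ) *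
        ((univ.filter fun a => f a = y).card : ℝ) := by
    rw [sum_comp (fun y => ((univ.filter fun a => f a = y).card : ℝ)) f]
    simp only [nsmul_eq_mul]
  have e3 : (R : ℝ) = ∑ y ∈ univ.image f, ((univ.filter fun a => f a = y).card : ℝ) := by
    have := sum_comp (s := univ) (fun _ : Γ => (1 : ℝ)) f
    simp only [nsmul_eq_mul, mul_one, sum_const, card_univ, Fintype.card_fin] at this
    exact this
  have e4 : ((univ.image f).card : ℝ) = ∑ y ∈ univ.image f, (1 : ℝ) := by simp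
  rw [e2, e4]
  conv_lhs => rw [e3]
  rw [mul_sum, mul_sum, ← sum_sub_distrib]
  refine sum_le_sum fun y _ => ?_
  nlinarith [sq_nonneg (a * ((univ.filter fun a => f a = y).card : ℝ) - 1)]

/-- a walk with drift and independent perturbations visits many unit intervals -/
theorem t_sec (lam : ℝ) (hlam : lam ≠ 0) (A : Type) [Fintype A] [Nonempty A] (σ : A → ℝ) (R : ℕ) :
    (R : ℝ) / (2 + 1 / |lam|) * (Fintype.card A : ℝ) ^ R ≤
      ∑ x : Fin R → A, ((Set.range fun r : Fin R => ⌊(r : ℝ) * lam + σ (x r)⌋).ncard : ℝ) := by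
  classical
  set q := Fintype.card A with hq
  have hq0 : 0 < q := Fintype.card_pos
  have hpos : 0 < |lam| := abs_pos.2 hlam
  set Q : ℝ := 2 + 1 / |lam| with hQ
  have hQ0 : 0 < Q := by positivity
  set E : Fin R → Fin R → A → A → Prop := fun r r' a a' =>
    ⌊(r : ℝ) * lam + σ a⌋ = ⌊(r' : ℝ) * lam + σ a'⌋ with hE
  have huniq : ∀ (r : Fin R) (p : A × A), (∑ r' : Fin R,
      if E r r' p.1 p.2 then (1 : ℝ) else 0) ≤ 1 / |lam| + 1 := by
    intro r p
    have h1 := card_floor R lam (σ p.2) hlam (⌊(r : ℝ) * lam + σ p.1⌋)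
    rw [card_filter] at h1
    push_cast at h1
    refine le_trans (le_of_eq ?_) h1
    refine sum_congr rfl fun r' _ => ?_
    simp only [hE, eq_comm]
  have hrow : ∀ r : Fin R, (∑ r' : Fin R, ((univ.filter fun p : A × A =>
      E r r' p.1 p.2).card : ℝ)) ≤ (1 / |lam| + 1) * (q : ℝ) ^ 2 := by
    intro r
    simp only [card_filter]
    push_cast
    rw [sum_comm]
    refine (sum_le_sum fun p _ => huniq r p).trans (le_of_eq ?_)
    rw [sum_const, card_univ, Fintype.card_prod, nsmul_eq_mul]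
    push_cast
    ring
  have hN : ∀ r r' : Fin R, ((univ.filter fun x : Fin R → A => E r r' (x r) (x r')).card : ℝ) *
      (q : ℝ) ^ 2 ≤ (q : ℝ) ^ R * ((univ.filter fun p : A × A => E r r' p.1 p.2).card : ℝ) +
        (if r = r' then (q : ℝ) ^ R * (q : ℝ) ^ 2 else 0) := by
    intro r r'
    by_cases h : r = r'
    · rw [if_pos h]
      have h1 : ((univ.filter fun x : Fin R → A => E r r' (x r) (x r')).card : ℝ) ≤
          (q : ℝ) ^ R := by
        have h2 := card_le_univ (univ.filter fun x : Fin R → A => E r r' (x r) (x r'))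
        rw [Fintype.card_fun, Fintype.card_fin] at h2
        exact_mod_cast h2
      have h2 := mul_le_mul_of_nonneg_right h1 (sq_nonneg (q : ℝ))
      have h3 : (0 : ℝ) ≤ (q : ℝ) ^ R *
        ((univ.filter fun p : A × A => E r r' p.1 p.2).card : ℝ) := by positivity
      linarith
    · rw [if_neg h, add_zero]
      have h3 := count2 h fun a a' => E r r' a a'
      rw [← hq] at h3
      refine le_of_eq ?_
      have h4 : (((univ.filter fun x : Fin R → A => E r r' (x r) (x r')).card * q ^ 2 : ℕ) : ℝ) =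
          ((q ^ R * (univ.filter fun p : A × A => E r r' p.1 p.2).card : ℕ) : ℝ) := by
        congr 1
        convert h3
      push_cast at h4
      exact h4
  have hT0 : ∀ r : Fin R, (∑ r' : Fin R,
      ((univ.filter fun x : Fin R → A => E r r' (x r) (x r')).card : ℝ)) ≤ Q * (q : ℝ) ^ R := by
    intro r
    have hq2 : (0 : ℝ) < (q : ℝ) ^ 2 := by positivity
    have h1 : (∑ r' : Fin R,
        ((univ.filter fun x : Fin R → A => E r r' (x r) (x r')).card : ℝ)) * (q : ℝ) ^ 2 ≤
        (Q * (q : ℝ) ^ R) * (q : ℝ) ^ 2 := by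
      rw [sum_mul]
      refine (sum_le_sum fun r' _ => hN r r').trans ?_
      rw [sum_add_distrib, ← mul_sum]
      have h2 := mul_le_mul_of_nonneg_left (hrow r) (by positivity : (0 : ℝ) ≤ (q : ℝ) ^ R)
      have h3 : (∑ r' : Fin R, if r = r' then (q : ℝ) ^ R * (q : ℝ) ^ 2 else 0) =
          (q : ℝ) ^ R * (q : ℝ) ^ 2 := by
        simp
      rw [h3, hQ]
      nlinarith
    exact le_of_mul_le_mul_right h1 hq2
  have hT : ∑ x : Fin R → A, ∑ r : Fin R, ∑ r' : Fin R,
      (if E r r' (x r) (x r') then (1 : ℝ) else 0) ≤ R * (Q * (q : ℝ) ^ R) := by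
    rw [sum_comm]
    have h1 : ∀ r : Fin R, ∑ x : Fin R → A, ∑ r' : Fin R,
        (if E r r' (x r) (x r') then (1 : ℝ) else 0) ≤ Q * (q : ℝ) ^ R := by
      intro r
      rw [sum_comm]
      have h2 := hT0 r
      simp only [card_filter] at h2
      push_cast at h2
      exact h2
    refine (sum_le_sum fun r _ => h1 r).trans ?_
    simp
  have hfin : ∑ x : Fin R → A, (2 * (1 / Q) * (R : ℝ) - (1 / Q) ^ 2 * (∑ r : Fin R, ∑ r' : Fin R,
      (if E r r' (x r) (x r') then (1 : ℝ) else 0))) ≤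
      ∑ x : Fin R → A, ((Set.range fun r : Fin R => ⌊(r : ℝ) * lam + σ (x r)⌋).ncard : ℝ) :=
    sum_le_sum fun x _ => ncard_ge (fun r : Fin R => ⌊(r : ℝ) * lam + σ (x r)⌋) (1 / Q)
  refine le_trans ?_ hfin
  have h5 : ∑ _x : Fin R → A, (2 * (1 / Q) * (R : ℝ)) = (q : ℝ) ^ R * (2 * (1 / Q) * R) := by
    rw [sum_const, card_univ, Fintype.card_fun, Fintype.card_fin, nsmul_eq_mul]
    push_cast
    rfl
  rw [sum_sub_distrib, h5, ← mul_sum]
  have h6 := mul_le_mul_of_nonneg_left hT (sq_nonneg (1 / Q))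
  have h7 : (1 / Q) ^ 2 * (R * (Q * (q : ℝ) ^ R)) = (q : ℝ) ^ R * ((1 / Q) * R) := by
    field_simp
  rw [h7] at h6
  have h8 : (R : ℝ) / Q * (q : ℝ) ^ R = (q : ℝ) ^ R * (2 * (1 / Q) * R) -
      (q : ℝ) ^ R * ((1 / Q) * R) := by
    field_simp
    ring
  rw [h8]
  linarith

end Pool.Agent.K9h61.GG
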