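import Pool.Agent.K9h61.GG.Cnt

/-!
# Growth from a crossed homomorphism, archimedean case
-/

set_option autoImplicit false

namespace Pool.Agent.K9h61.GG

open Pool.Agent.N600.G3
open Filter Topology
open scoped Pointwise

/-- a lower bound for the growth rate from a subsequence -/
theorem rho_ge_of_subseq {G : Type*} [Group G] (T : Set G) (L : ℕ) (hL : 0 < L) (x : ℝ)
    (h : ∀ R : ℕ, x * (L * R : ℕ) ≤ Real.log (Nat.card ↥(T ^ (L * R)))) :
    x ≤ H746UG.rho T := by
  have h1 := (H746UG.tendsto_rho T).comp (tendsto_id.const_mul_atTop' hL)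
  refine ge_of_tendsto h1 ?_
  filter_upwards [eventually_gt_atTop 0] with R hR
  have h2 : (0 : ℝ) < ((L * R : ℕ) : ℝ) := by exact_mod_cast Nat.mul_pos hL hR
  show x ≤ Real.log (Nat.card ↥(T ^ (L * R))) / ((L * R : ℕ) : ℝ)
  rw [le_div_iff₀ h2]
  exact h R

theorem t_tha (G : Type) [Group G] (T : Set G) (hfin : T.Finite) (h1T : 1 ∈ T) (hinv : T⁻¹ = T)
    (hgen : Subgroup.closure T = ⊤) (β : ℝ) (hβ : 0 < β) (χ : commutator G →* ℂˣ)
    (b : commutator G → ℂ) (hb : Crossed χ b) (c : commutator G) (hc : (c : G) ∈ CT T)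
    (hbc : b c = 0) (hvc : β ≤ |Real.log ‖(χ c : ℂ)‖|) (hne : ∃ m, b m ≠ 0) :
    Real.log 2 / (88 * QQ β) ≤ H746UG.rho T := by
  obtain ⟨K, s, d, hK, hs, hd, hi, hii, hiii⟩ :=
    N918.G3.t_geo G T h1T hinv hgen ℂ χ b hb c hc hbc hne
  let g : Fin K → G := fun i => (hh s (K - 1 - i))⁻¹
  let χ' : Fin K → commutator G →* ℂˣ := fun i => χ.comp (cj (g i))
  let b' : Fin K → commutator G → ℂ := fun i m => b (cj (g i) m)
  let c' : Fin K → commutator G := fun j => cj (hh s (K - 1 - j)) c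
  let d' : Fin K → commutator G := fun j => cj (hh s (K + (K - 1 - j))) d
  have hb' : ∀ k, Crossed (χ' k) (b' k) := by
    intro k m m'
    show b (cj (g k) (m * m')) = b (cj (g k) m) + (χ (cj (g k) m) : ℂ) * b (cj (g k) m')
    rw [map_mul, hb]
  have e1 : ∀ i j, b' i (c' j) = 0 := by
    intro i j
    show b (cj (g i) (cj (hh s (K - 1 - j)) c)) = 0
    rw [cj_cj]
    exact hi _ (by omega) _ (by omega)
  have e2 : ∀ i j, i < j → b' i (d' j) = 0 := by
    intro i j hij
    show b (cj (g i) (cj (hh s (K + (K - 1 - j))) d)) = 0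
    rw [cj_cj]
    have : (i : ℕ) < j := hij
    exact hii _ _ (by omega) (by omega)
  have e3 : ∀ i, b' i (d' i) ≠ 0 := by
    intro i
    show b (cj (g i) (cj (hh s (K + (K - 1 - i))) d)) ≠ 0
    rw [cj_cj]
    exact hiii _ (by omega)
  have e4 : ∀ i, β ≤ |Real.log ‖(χ' i (c' i) : ℂ)‖| := by
    intro i
    show β ≤ |Real.log ‖(χ (cj (g i) (cj (hh s (K - 1 - i)) c)) : ℂ)‖|
    rw [cj_cj]
    have : g i * hh s (K - 1 - i) = 1 := inv_mul_cancel _
    rw [this, cj_one]
    exact hvc
  obtain ⟨ε, hε⟩ := t_cnt (commutator G) β hβ K χ' b' hb' c' d' e1 e2 e3 e4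
  obtain ⟨hL1, hL2⟩ := N454.G3.t_len G T h1T hinv s hs c d hc hd K hK
  refine rho_ge_of_subseq T (22 * K) (by omega) _ fun R => ?_
  have hmem : ∀ δ : Fin R → Fin K → Bool,
      ((((List.ofFn fun r => AA d' (δ r) * AA c' ε * (AA d' (δ r))⁻¹).prod :
        commutator G)) : G) ∈ T ^ (22 * K * R) := by
    intro δ
    have h5 : ((((List.ofFn fun r => AA d' (δ r) * AA c' ε * (AA d' (δ r))⁻¹).prod :
        commutator G)) : G) = (List.ofFn fun r => (((AA d' (δ r) * AA c' ε * (AA d' (δ r))⁻¹ :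
          commutator G)) : G)).prod := by
      have := map_list_prod (commutator G).subtype
        (List.ofFn fun r => AA d' (δ r) * AA c' ε * (AA d' (δ r))⁻¹)
      rw [List.map_ofFn] at this
      exact this
    rw [h5]
    apply prod_mem_pow
    intro r
    have h6 : ((AA d' (δ r) : commutator G) : G) ∈ T ^ (8 * K) := by
      have := AA_map (commutator G).subtype d' (δ r)
      show (commutator G).subtype _ ∈ _
      rw [this]
      exact hL2 (δ r)
    have h7 : ((AA c' ε : commutator G) : G) ∈ T ^ (6 * K) := by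
      have := AA_map (commutator G).subtype c' ε
      show (commutator G).subtype _ ∈ _
      rw [this]
      exact hL1 ε
    have h8 : T ^ (22 * K) = T ^ (8 * K) * T ^ (6 * K) * T ^ (8 * K) := by
      rw [← pow_add, ← pow_add]; congr 1; omega
    rw [h8]
    exact Set.mul_mem_mul (Set.mul_mem_mul h6 h7) (inv_mem_pow hinv h6)
  have hfinT : Finite ↥(T ^ (22 * K * R)) := (finite_pow hfin _).to_subtype
  have hcard : Nat.card (Set.range fun δ : Fin R → Fin K → Bool =>
      (List.ofFn fun r => AA d' (δ r) * AA c' ε * (AA d' (δ r))⁻¹).prod) ≤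
      Nat.card ↥(T ^ (22 * K * R)) := by
    refine Nat.card_le_card_of_injective
      (fun x : Set.range _ => (⟨((x : commutator G) : G), ?_⟩ : ↥(T ^ (22 * K * R)))) ?_
    · obtain ⟨_, δ, rfl⟩ := x
      exact hmem δ
    · intro x y hxy
      have h9 := congrArg (fun z : ↥(T ^ (22 * K * R)) => (z : G)) hxy
      exact Subtype.ext (Subtype.ext h9)
  have hpos : 0 < Nat.card (Set.range fun δ : Fin R → Fin K → Bool =>
      (List.ofFn fun r => AA d' (δ r) * AA c' ε * (AA d' (δ r))⁻¹).prod) := by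
    rw [Nat.card_coe_set_eq]
    exact (Set.ncard_pos (Set.finite_range _)).2 (Set.range_nonempty _)
  have h10 := (hε R).trans (Real.log_le_log (Nat.cast_pos.2 hpos) (Nat.cast_le.2 hcard))
  refine le_trans (le_of_eq ?_) h10
  have hQ := QQ_pos hβ
  push_cast
  field_simp
  ring

end Pool.Agent.K9h61.GG
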